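import Pool.Agent.U476.ZO.Ord

/-! The leading coefficient at a root of unity is bounded by the maximum on a small circle. -/

set_option autoImplicit false

namespace Pool.Agent.U476.ZO

open Finset Polynomial

lemma circle {m : ℕ} (hm : 0 < m) {ζ : ℂ} (hζ : IsPrimitiveRoot ζ (2 * m)) {ρ : ℝ} (h0 : 0 < ρ)
    (h1 : ρ < 1) (k o : ℕ) (f G : ℤ[X]) (hf : f = Ph m ^ o * G) (U : ℝ)
    (hU : ∀ z : ℂ, ‖z - ζ‖ = ρ → ‖aeval z f‖ ≤ U * ‖z‖ ^ k) :
    ‖aeval ζ G‖ * ‖aeval ζ (derivative (Ph m))‖ ^ o ≤ U / ρ ^ o := by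
  have hζ1 : ‖ζ‖ = 1 := Complex.norm_eq_one_of_pow_eq_one hζ.pow_eq_one (by omega)
  set φ : ℂ[X] := (Ph m).map (Int.castRingHom ℂ) with hφ
  have hroot : φ.IsRoot ζ := by
    have := (dvd_iff (n := 2 * m) (by omega) hζ (Ph m)).1 (dvd_refl _)
    rw [IsRoot.def, hφ, eval_map]
    exact this
  obtain ⟨Ψ, hΨ⟩ := dvd_iff_isRoot.2 hroot
  have hder : aeval ζ (derivative (Ph m)) = Ψ.eval ζ := by
    have e1 : aeval ζ (derivative (Ph m)) = (derivative φ).eval ζ := by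
      rw [hφ, derivative_map, eval_map]; rfl
    rw [e1, hΨ]
    simp
  set g : ℂ[X] := G.map (Int.castRingHom ℂ) with hg
  have hgv : ∀ z : ℂ, aeval z G = g.eval z := fun z => by rw [hg, eval_map]; rfl
  have hfv : ∀ z : ℂ, aeval z f = ((z - ζ) * Ψ.eval z) ^ o * g.eval z := by
    intro z
    rw [hf, map_mul, map_pow, hgv]
    congr 2
    have : aeval z (Ph m) = φ.eval z := by rw [hφ, eval_map]; rfl
    rw [this, hΨ]
    simp
  have hne : ∀ z ∈ Metric.closedBall ζ ρ, z ≠ 0 := by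
    intro z hz hz0
    rw [hz0, mem_closedBall_iff_norm, zero_sub, norm_neg, hζ1] at hz
    linarith
  have hdiff : DifferentiableOn ℂ (fun z => g.eval z * (Ψ.eval z) ^ o / z ^ k)
      (closure (Metric.ball ζ ρ)) := by
    refine DifferentiableOn.mono (t := Metric.closedBall ζ ρ) ?_ Metric.closure_ball_subset_closedBall
    intro z hz
    refine DifferentiableAt.differentiableWithinAt ?_
    refine DifferentiableAt.div ?_ (differentiableAt_pow k) (pow_ne_zero _ (hne z hz))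
    exact (Polynomial.differentiableAt g).mul ((Polynomial.differentiableAt Ψ).pow o)
  have hmax := Complex.norm_le_of_forall_mem_frontier_norm_le (Metric.isBounded_ball)
    hdiff.diffContOnCl (C := U / ρ ^ o) ?_ (subset_closure (Metric.mem_ball_self h0))
  · rw [hgv, hder]
    rw [norm_div, norm_mul, norm_pow, norm_pow, hζ1, one_pow, div_one] at hmax
    exact hmax
  · intro z hz
    have hz1 : ‖z - ζ‖ = ρ := by
      have := Metric.frontier_ball_subset_sphere hz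
      rwa [mem_sphere_iff_norm] at this
    have hz0 : z ≠ 0 := hne z (by rw [mem_closedBall_iff_norm]; exact hz1.le)
    have h2 := hU z hz1
    rw [hfv, norm_mul, norm_pow, norm_mul, hz1, mul_pow] at h2
    rw [norm_div, norm_mul, norm_pow, norm_pow, div_le_div_iff₀ (by positivity) (by positivity)]
    calc ‖eval z g‖ * ‖eval z Ψ‖ ^ o * ρ ^ o = ρ ^ o * ‖eval z Ψ‖ ^ o * ‖eval z g‖ := by ring
      _ ≤ U * ‖z‖ ^ k := h2

lemma der_not_dvd {m : ℕ} (hm : 0 < m) : ¬ Ph m ∣ derivative (Ph m) := by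
  have hdeg : (Ph m).natDegree ≠ 0 := by
    rw [natDegree_cyclotomic]
    exact (Nat.totient_pos.2 (by omega)).ne'
  have h1 : derivative (Ph m) ≠ 0 := fun h => hdeg (natDegree_eq_zero_of_derivative_eq_zero h)
  exact not_dvd_of_natDegree_lt h1 (natDegree_derivative_lt hdeg)

lemma NN_le {m : ℕ} (hm : 0 < m) {ρ : ℝ} (h0 : 0 < ρ)
    (h1 : ρ < 1) (k o : ℕ) (f G : ℤ[X]) (hf : f = Ph m ^ o * G) (U : ℂ → ℝ)
    (hU : ∀ ζ ∈ primitiveRoots (2 * m) ℂ, ∀ z : ℂ, ‖z - ζ‖ = ρ → ‖aeval z f‖ ≤ U ζ * ‖z‖ ^ k) :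
    NN (2 * m) G ≤ ∏ ζ ∈ primitiveRoots (2 * m) ℂ, (U ζ / ρ ^ o) := by
  have h2 : NN (2 * m) G * NN (2 * m) (derivative (Ph m)) ^ o ≤
      ∏ ζ ∈ primitiveRoots (2 * m) ℂ, (U ζ / ρ ^ o) := by
    rw [NN, NN, ← Finset.prod_pow, ← Finset.prod_mul_distrib]
    refine Finset.prod_le_prod (fun _ _ => by positivity) fun ζ hζ => ?_
    exact circle hm (isPrimitiveRoot_of_mem_primitiveRoots hζ) h0 h1 k o f G hf (U ζ) (hU ζ hζ)
  have h3 : 1 ≤ NN (2 * m) (derivative (Ph m)) ^ o :=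
    one_le_pow₀ (one_le_NN (by omega) _ (der_not_dvd hm))
  have h4 := NN_nonneg (2 * m) G
  nlinarith

end Pool.Agent.U476.ZO
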