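import Mathlib

/-! The number of integers with many prime factors. -/

set_option autoImplicit false

namespace Pool.Agent.U476.ZO

open Finset ArithmeticFunction

lemma pow_omega_le (z : ℝ) (hz : 0 ≤ z) (n : ℕ) (hn : n ≠ 0) :
    (z + 1) ^ n.primeFactors.card ≤ ∑ d ∈ n.divisors, z ^ d.primeFactors.card := by
  have h1 := Finset.sum_pow_mul_eq_add_pow z (1 : ℝ) n.primeFactors
  simp only [one_pow, mul_one] at h1
  rw [← h1]
  have hinj : Set.InjOn (fun T : Finset ℕ => ∏ p ∈ T, p) (n.primeFactors.powerset : Set (Finset ℕ)) := by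
    intro T hT T' hT' h
    have h2 : ∀ p ∈ T, p.Prime := fun p hp =>
      Nat.prime_of_mem_primeFactors (Finset.mem_powerset.1 hT hp)
    have h3 : ∀ p ∈ T', p.Prime := fun p hp =>
      Nat.prime_of_mem_primeFactors (Finset.mem_powerset.1 hT' hp)
    rw [← Nat.primeFactors_prod h2, ← Nat.primeFactors_prod h3]
    exact congrArg Nat.primeFactors h
  have h4 : ∑ T ∈ n.primeFactors.powerset, z ^ T.card =
      ∑ d ∈ n.primeFactors.powerset.image (fun T : Finset ℕ => ∏ p ∈ T, p),
        z ^ d.primeFactors.card := by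
    rw [Finset.sum_image hinj]
    refine Finset.sum_congr rfl fun T hT => ?_
    rw [Nat.primeFactors_prod fun p hp =>
      Nat.prime_of_mem_primeFactors (Finset.mem_powerset.1 hT hp)]
  rw [h4]
  refine Finset.sum_le_sum_of_subset_of_nonneg ?_ fun d _ _ => by positivity
  intro d hd
  obtain ⟨T, hT, rfl⟩ := Finset.mem_image.1 hd
  rw [Nat.mem_divisors]
  refine ⟨?_, hn⟩
  exact (Finset.prod_dvd_prod_of_subset _ _ _ (Finset.mem_powerset.1 hT)).trans
    (Nat.prod_primeFactors_dvd n)

theorem omega_sum (z : ℕ) : ∀ X : ℕ,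
    ∑ n ∈ Ioc 0 X, ((z : ℝ) + 1) ^ n.primeFactors.card ≤ X * (1 + Real.log X) ^ z := by
  induction z with
  | zero =>
    intro X
    simp
  | succ z ih =>
    intro X
    let f : ArithmeticFunction ℝ :=
      ⟨fun n => if n = 0 then 0 else ((z : ℝ) + 1) ^ n.primeFactors.card, by simp⟩
    have hf : ∀ n, n ≠ 0 → f n = ((z : ℝ) + 1) ^ n.primeFactors.card := by
      intro n hn
      show (if n = 0 then 0 else ((z : ℝ) + 1) ^ n.primeFactors.card) = _
      rw [if_neg hn]
    have h1 : ∀ n ∈ Ioc 0 X, (((z + 1 : ℕ) : ℝ) + 1) ^ n.primeFactors.card ≤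
        ((zeta : ArithmeticFunction ℝ) * f) n := by
      intro n hn
      have hn0 : n ≠ 0 := by
        have := (Finset.mem_Ioc.1 hn).1
        omega
      rw [coe_zeta_mul_apply]
      push_cast
      refine (pow_omega_le _ (by positivity) n hn0).trans (le_of_eq ?_)
      refine Finset.sum_congr rfl fun d hd => ?_
      rw [hf d (Nat.pos_of_mem_divisors hd).ne']
    refine (Finset.sum_le_sum h1).trans ?_
    rw [sum_Ioc_mul_eq_sum_sum]
    have hX0 : 0 ≤ Real.log X := Real.log_natCast_nonneg X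
    have h2 : ∀ e ∈ Ioc 0 X, ((zeta : ArithmeticFunction ℝ) e) * ∑ m ∈ Ioc 0 (X / e), f m ≤
        (X : ℝ) * (1 + Real.log X) ^ z * (e : ℝ)⁻¹ := by
      intro e he
      obtain ⟨he0, heX⟩ := Finset.mem_Ioc.1 he
      have h3 : ((zeta : ArithmeticFunction ℝ) e) = 1 := by
        rw [natCoe_apply, zeta_apply, if_neg (by omega), Nat.cast_one]
      rw [h3, one_mul]
      have h4 : ∑ m ∈ Ioc 0 (X / e), f m =
          ∑ m ∈ Ioc 0 (X / e), ((z : ℝ) + 1) ^ m.primeFactors.card :=
        Finset.sum_congr rfl fun m hm => hf m (by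
          have := (Finset.mem_Ioc.1 hm).1
          omega)
      rw [h4]
      refine (ih (X / e)).trans ?_
      have h5 : ((X / e : ℕ) : ℝ) ≤ (X : ℝ) * (e : ℝ)⁻¹ := by
        rw [← div_eq_mul_inv]
        exact Nat.cast_div_le
      have h6 : Real.log ((X / e : ℕ) : ℝ) ≤ Real.log X := by
        have h7 : 0 < X / e := Nat.div_pos heX he0
        refine Real.log_le_log (by exact_mod_cast h7) ?_
        exact_mod_cast Nat.div_le_self X e
      have h8 : 0 ≤ Real.log ((X / e : ℕ) : ℝ) := Real.log_natCast_nonneg _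
      calc ((X / e : ℕ) : ℝ) * (1 + Real.log ((X / e : ℕ) : ℝ)) ^ z
          ≤ ((X : ℝ) * (e : ℝ)⁻¹) * (1 + Real.log X) ^ z := by
            gcongr
        _ = _ := by ring
    refine (Finset.sum_le_sum h2).trans ?_
    rw [← Finset.mul_sum, pow_succ]
    have h9 : ∑ e ∈ Ioc 0 X, (e : ℝ)⁻¹ ≤ 1 + Real.log X := by
      have := harmonic_le_one_add_log X
      rw [harmonic_eq_sum_Icc] at this
      push_cast at this
      exact this
    calc (X : ℝ) * (1 + Real.log X) ^ z * ∑ e ∈ Ioc 0 X, (e : ℝ)⁻¹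
        ≤ (X : ℝ) * (1 + Real.log X) ^ z * (1 + Real.log X) := by
          refine mul_le_mul_of_nonneg_left h9 (by positivity)
      _ = _ := by ring

theorem omega_card (z K X : ℕ) :
    (((Ioc 0 X).filter fun n => K < n.primeFactors.card).card : ℝ) * ((z : ℝ) + 1) ^ (K + 1) ≤
      X * (1 + Real.log X) ^ z := by
  refine le_trans ?_ (omega_sum z X)
  rw [← nsmul_eq_mul, ← Finset.sum_const]
  refine le_trans ?_ (Finset.sum_le_sum_of_subset_of_nonneg (Finset.filter_subset
    (fun n => K < n.primeFactors.card) _) fun n _ _ => by positivity)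
  refine Finset.sum_le_sum fun n hn => ?_
  have h1 := (Finset.mem_filter.1 hn).2
  exact pow_le_pow_right₀ (by
    have : (0 : ℝ) ≤ z := Nat.cast_nonneg z
    linarith) h1

end Pool.Agent.U476.ZO
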