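import Pool.Agent.U476.ZO.Rec
import Pool.Agent.U476.ZO.Omega

/-! Counting the levels at which a function of Habiro's type vanishes. -/

set_option autoImplicit false

namespace Pool.Agent.U476.ZO

open Finset Polynomial HF

/-- A large number with few prime factors has a large prime power component. -/
lemma exists_comp {n y K : ℕ} (hn : n ≠ 0) (hy : 1 ≤ y) (hK : n.primeFactors.card ≤ K)
    (h : y ^ K < n) : ∃ p, p ∈ n.primeFactors ∧ y < p ^ n.factorization p := by
  by_contra h1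
  push Not at h1
  have h2 : n = ∏ p ∈ n.primeFactors, p ^ n.factorization p := by
    conv_lhs => rw [← Nat.prod_factorization_pow_eq_self hn]
    rfl
  have h3 : ∏ p ∈ n.primeFactors, p ^ n.factorization p ≤ y ^ n.primeFactors.card := by
    refine Finset.prod_le_pow_card _ _ _ h1
  have h4 : y ^ n.primeFactors.card ≤ y ^ K := Nat.pow_le_pow_right hy hK
  omega

variable {F : HF} {C : ℝ}

open Classical in
/-- The three kinds of zeros. -/
theorem zero_le (hF : Gr F C) {o₁ : ℕ} (h₁ : F.Ex 1 o₁) {K X : ℕ} {A : ℝ} (hX : 1 ≤ X)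
    (hA : A = (18 * C + 9) * (((K : ℝ) + 1) * (1 + 2 * Real.log X) ^ 2))
    (hAX : ((o₁ : ℝ) + 1) * A ^ K ≤ X) (z y : ℕ) (hy : 1 ≤ y) :
    (((Ioc 0 X).filter fun n => F.Van n 1).card : ℝ) ≤
      X * (1 + Real.log X) ^ z / ((z : ℝ) + 1) ^ (K + 1) + (y : ℝ) ^ K +
        (X / y : ℝ) * (((o₁ : ℝ) + 1) * A ^ (K + 1)) := by
  have hX1 : (1 : ℝ) ≤ X := by exact_mod_cast hX
  set S1 := (Ioc 0 X).filter fun n => K < n.primeFactors.card with hS1
  set S2 := Ioc 0 (y ^ K) with hS2
  set M := (Ioc 0 (X / y)).filter fun m => m.primeFactors.card ≤ K with hM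
  let Em : ℕ → Finset ℕ := fun m => (Ioc 0 X).filter fun Q => IsPrimePow Q ∧ F.Van (m * Q) 1
  set S3 := M.biUnion fun m => (Em m).image fun Q => m * Q with hS3
  have hsub : ((Ioc 0 X).filter fun n => F.Van n 1) ⊆ S1 ∪ S2 ∪ S3 := by
    intro n hn
    obtain ⟨h1, h2⟩ := Finset.mem_filter.1 hn
    obtain ⟨h3, h4⟩ := Finset.mem_Ioc.1 h1
    rw [Finset.mem_union, Finset.mem_union]
    by_cases h5 : K < n.primeFactors.card
    · left; left
      exact Finset.mem_filter.2 ⟨h1, h5⟩
    · push Not at h5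
      by_cases h6 : n ≤ y ^ K
      · left; right
        exact Finset.mem_Ioc.2 ⟨h3, h6⟩
      · right
        push Not at h6
        obtain ⟨p, hp, hyp⟩ := exists_comp (by omega) hy h5 h6
        have hpp := Nat.prime_of_mem_primeFactors hp
        have hpn := Nat.dvd_of_mem_primeFactors hp
        set Q := p ^ n.factorization p with hQ
        have e : n / Q * Q = n := Nat.div_mul_cancel (Nat.ordProj_dvd n p)
        have hQ0 : 0 < Q := by omega
        have hb0 : 0 < n.factorization p := hpp.factorization_pos_of_dvd (by omega) hpn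
        have hm0 : 0 < n / Q := Nat.div_pos (Nat.le_of_dvd h3 (Nat.ordProj_dvd n p)) hQ0
        rw [hS3, Finset.mem_biUnion]
        refine ⟨n / Q, ?_, ?_⟩
        · rw [hM, Finset.mem_filter, Finset.mem_Ioc]
          refine ⟨⟨hm0, ?_⟩, ?_⟩
          · calc n / Q ≤ n / y := Nat.div_le_div_left (by omega) (by omega)
              _ ≤ X / y := Nat.div_le_div_right h4
          · refine (Finset.card_le_card ?_).trans h5
            exact Nat.primeFactors_mono (Nat.div_dvd_of_dvd (Nat.ordProj_dvd n p)) (by omega)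
        · rw [Finset.mem_image]
          refine ⟨Q, ?_, e⟩
          rw [Finset.mem_filter, Finset.mem_Ioc]
          refine ⟨⟨hQ0, (Nat.le_of_dvd h3 (Nat.ordProj_dvd n p)).trans h4⟩, ?_, ?_⟩
          · exact (isPrimePow_nat_iff _).2 ⟨p, _, hpp, hb0, rfl⟩
          · rw [e]; exact h2
  have hc1 : (S1.card : ℝ) ≤ X * (1 + Real.log X) ^ z / ((z : ℝ) + 1) ^ (K + 1) := by
    rw [le_div_iff₀ (by positivity)]
    exact omega_card z K X
  have hc2 : (S2.card : ℝ) ≤ (y : ℝ) ^ K := by
    rw [hS2, Nat.card_Ioc]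
    simp
  have hB0 : 0 ≤ ((o₁ : ℝ) + 1) * A ^ (K + 1) := by
    have hA0 : 0 ≤ A := by
      rw [hA]
      have := hF.1
      positivity
    positivity
  have hc3 : (S3.card : ℝ) ≤ (X / y : ℝ) * (((o₁ : ℝ) + 1) * A ^ (K + 1)) := by
    have h1 : (S3.card : ℝ) ≤ ∑ m ∈ M, (((o₁ : ℝ) + 1) * A ^ (K + 1)) := by
      have h2 : S3.card ≤ ∑ m ∈ M, (Em m).card := by
        refine Finset.card_biUnion_le.trans (Finset.sum_le_sum fun m _ => Finset.card_image_le)
      have h3 : (S3.card : ℝ) ≤ ∑ m ∈ M, ((Em m).card : ℝ) := by exact_mod_cast h2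
      refine h3.trans (Finset.sum_le_sum fun m hm => ?_)
      obtain ⟨h4, h5⟩ := Finset.mem_filter.1 hm
      obtain ⟨h6, h7⟩ := Finset.mem_Ioc.1 h4
      have h8 : (m : ℝ) ≤ X := by exact_mod_cast h7.trans (Nat.div_le_self X y)
      exact exc_card hF h₁ hX1 hA hAX h6 h8 h5 (Em m) fun Q hQ => (Finset.mem_filter.1 hQ).2
    rw [Finset.sum_const, nsmul_eq_mul] at h1
    refine h1.trans (mul_le_mul_of_nonneg_right ?_ hB0)
    have h2 : M.card ≤ X / y := by
      refine (Finset.card_filter_le _ _).trans ?_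
      rw [Nat.card_Ioc, Nat.sub_zero]
    calc (M.card : ℝ) ≤ ((X / y : ℕ) : ℝ) := by exact_mod_cast h2
      _ ≤ X / y := Nat.cast_div_le
  have hc : (((Ioc 0 X).filter fun n => F.Van n 1).card : ℝ) ≤ S1.card + S2.card + S3.card := by
    have h1 := (Finset.card_le_card hsub).trans (Finset.card_union_le _ _)
    have h2 := Finset.card_union_le S1 S2
    have h3 : ((Ioc 0 X).filter fun n => F.Van n 1).card ≤ S1.card + S2.card + S3.card := by omega
    exact_mod_cast h3
  linarith

/-- The asymptotic comparison of the parameters. -/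
lemma params (B : ℝ) : ∃ L₀ : ℝ, ∀ L : ℝ, L₀ ≤ L →
    B ≤ Real.log L ∧ 1 ≤ Real.log L ∧ Real.log L ≤ √(√L) / 1000 ∧ 1 ≤ L := by
  have h1 := Real.tendsto_log_atTop.eventually_ge_atTop B
  have h2 := Real.tendsto_log_atTop.eventually_ge_atTop 1
  have h3 := (isLittleO_log_rpow_atTop (show (0 : ℝ) < 1 / 4 by norm_num)).def
    (show (0 : ℝ) < 1 / 1000 by norm_num)
  obtain ⟨L₀, h⟩ := Filter.eventually_atTop.1
    ((h1.and (h2.and (h3.and (Filter.eventually_ge_atTop (1 : ℝ))))))
  refine ⟨L₀, fun L hL => ?_⟩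
  obtain ⟨a1, a2, a3, a4⟩ := h L hL
  refine ⟨a1, a2, ?_, a4⟩
  have h5 : √(√L) = L ^ (1 / 4 : ℝ) := by
    rw [Real.sqrt_eq_rpow, Real.sqrt_eq_rpow, ← Real.rpow_mul (by linarith)]
    norm_num
  rw [h5]
  rw [Real.norm_of_nonneg (by linarith), Real.norm_of_nonneg (Real.rpow_nonneg (by linarith) _)] at a3
  linarith

/-- **The number of zeros.** -/
theorem zero_count (hF : Gr F C) {o₁ : ℕ} (h₁ : F.Ex 1 o₁) : ∃ X₀ : ℕ, ∀ X : ℕ, X₀ ≤ X →
    ∀ S : Finset ℕ, (∀ n ∈ S, 0 < n ∧ n ≤ X ∧ F.Van n 1) →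
      (S.card : ℝ) ≤ X * Real.exp (-(√(Real.log X * Real.log (Real.log X)) / 20)) := by
  classical
  have hC := hF.1
  set c0 := Real.log ((o₁ : ℝ) + 1) with hc0
  set c1 := Real.log (18 * C + 9) with hc1
  have hc0' : 0 ≤ c0 := Real.log_nonneg (by
    have : (0 : ℝ) ≤ o₁ := Nat.cast_nonneg _
    linarith)
  have hc1' : 0 ≤ c1 := Real.log_nonneg (by linarith)
  obtain ⟨L₀, hL₀⟩ := params (c0 + 10 * (c1 + 4))
  obtain ⟨X₀, hX₀⟩ := exists_nat_ge (Real.exp L₀)
  refine ⟨X₀ + 1, fun X hX S hS => ?_⟩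
  have hX1 : 1 ≤ X := by omega
  have hXr : (1 : ℝ) ≤ X := by exact_mod_cast hX1
  have hXpos : (0 : ℝ) < X := by linarith
  set L := Real.log X with hL
  have hLL : L₀ ≤ L := by
    rw [hL, Real.le_log_iff_exp_le hXpos]
    have : (X₀ : ℝ) ≤ X := by exact_mod_cast (by omega : X₀ ≤ X)
    linarith
  obtain ⟨hB, hl1, hlu, hL1⟩ := hL₀ L hLL
  set l := Real.log L with hl
  set u := √(√L) with hu
  have hu0 : 0 ≤ u := Real.sqrt_nonneg _
  have hu2 : u ^ 2 = √L := Real.sq_sqrt (Real.sqrt_nonneg L)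
  have hu4 : (√L) ^ 2 = L := Real.sq_sqrt (by linarith)
  have hu1000 : 1000 ≤ u := by linarith
  set s := √(L * l) with hs
  have hs2 : s ^ 2 = L * l := Real.sq_sqrt (mul_nonneg (by linarith) (by linarith))
  have hs0 : 0 ≤ s := Real.sqrt_nonneg _
  have hsL : √L ≤ s := Real.sqrt_le_sqrt (le_mul_of_one_le_right (by linarith) hl1)
  have hlL : l ≤ L := by
    have : l ≤ L - 1 := Real.log_le_sub_one_of_pos (by linarith)
    linarith
  have hsL' : s ≤ L := by
    rw [hs, Real.sqrt_le_left (by linarith), sq]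
    exact mul_le_mul_of_nonneg_left hlL (by linarith)
  have hsu : u ^ 2 ≤ s := hu2 ▸ hsL
  have huu : 1000 * u ≤ u ^ 2 := by
    rw [sq]
    exact mul_le_mul_of_nonneg_right hu1000 hu0
  have hs1 : 1000000 ≤ s := by linarith
  -- parameters
  set K := ⌊s / (4 * l)⌋₊ with hK
  have hl0 : 0 < l := by linarith
  have hsl : 0 ≤ s / (4 * l) := by positivity
  have hK1 : (K : ℝ) ≤ s / (4 * l) := Nat.floor_le hsl
  have hK2 : s / (4 * l) ≤ (K : ℝ) + 1 := (Nat.lt_floor_add_one _).le
  have hK0 : (0 : ℝ) ≤ K := Nat.cast_nonneg _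
  have hKl : (K : ℝ) * l ≤ s / 4 := by
    have := mul_le_mul_of_nonneg_right hK1 hl0.le
    have e : s / (4 * l) * l = s / 4 := by field_simp
    linarith
  have hKl' : s / 4 ≤ ((K : ℝ) + 1) * l := by
    have := mul_le_mul_of_nonneg_right hK2 hl0.le
    have e : s / (4 * l) * l = s / 4 := by field_simp
    linarith
  set y := ⌈Real.exp s⌉₊ with hy
  have hes : 1 ≤ Real.exp s := Real.one_le_exp hs0
  have hy1 : Real.exp s ≤ y := Nat.le_ceil _
  have hy2 : (y : ℝ) ≤ 2 * Real.exp s := by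
    have := Nat.ceil_lt_add_one (Real.exp_pos s).le
    linarith
  have hy0 : (1 : ℝ) ≤ y := hes.trans hy1
  have hy0' : 1 ≤ y := by exact_mod_cast hy0
  set z := ⌊u⌋₊ with hz
  have hz1 : (z : ℝ) ≤ u := Nat.floor_le hu0
  have hz2 : u ≤ (z : ℝ) + 1 := (Nat.lt_floor_add_one _).le
  have hz0 : (0 : ℝ) ≤ z := Nat.cast_nonneg _
  set A := (18 * C + 9) * (((K : ℝ) + 1) * (1 + 2 * L) ^ 2) with hA
  have hApos : 0 < A := by positivity
  -- logarithms
  have hlogu : Real.log u = l / 4 := by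
    rw [hl, ← hu4, ← hu2, ← pow_mul, Real.log_pow]
    push_cast
    ring
  have hlogz : l / 4 ≤ Real.log ((z : ℝ) + 1) := by
    rw [← hlogu]
    exact Real.log_le_log (by linarith) hz2
  have hlog1L : Real.log (1 + L) ≤ 2 * l := by
    have h1 : 1 + L ≤ L * L := by
      have h0 : 2 * L ≤ L * L := mul_le_mul_of_nonneg_right (by linarith) (by linarith)
      linarith
    have h2 := Real.log_le_log (by linarith) h1
    rw [Real.log_mul (by linarith) (by linarith)] at h2
    linarith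
  have hlogK : Real.log ((K : ℝ) + 1) ≤ l / 2 := by
    have h1 : (K : ℝ) + 1 ≤ √L := by
      have h2 : (K : ℝ) ≤ √L / 4 := by
        refine hK1.trans ?_
        rw [div_le_iff₀ (by positivity)]
        have h3 : s ≤ √L * l := by
          have h4 : s ^ 2 ≤ (√L * l) ^ 2 := by
            rw [hs2, mul_pow, hu4]
            exact mul_le_mul_of_nonneg_left (le_self_pow₀ hl1 (by norm_num)) (by linarith)
          exact (abs_le_of_sq_le_sq' h4 (by positivity)).2
        linarith
      have h3 : (1000 : ℝ) ≤ √L := by rw [← hu2]; linarith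
      linarith
    have h2 := Real.log_le_log (by linarith) h1
    have h3 : Real.log (√L) = l / 2 := Real.log_sqrt (by linarith)
    linarith
  have hlog2L : Real.log (1 + 2 * L) ≤ l + 2 := by
    have h1 : 1 + 2 * L ≤ 3 * L := by linarith
    have h2 := Real.log_le_log (by linarith) h1
    rw [Real.log_mul (by norm_num) (by linarith)] at h2
    have h3 : Real.log 3 ≤ 3 - 1 := Real.log_le_sub_one_of_pos (by norm_num)
    linarith
  have hlogA : Real.log A ≤ c1 + 4 + 5 / 2 * l := by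
    rw [hA, Real.log_mul (by linarith) (by positivity), Real.log_mul (by linarith) (by positivity),
      Real.log_pow]
    push_cast
    linarith
  have hlogA' : Real.log A ≤ 26 / 10 * l := by linarith
  have hlogA0 : (((K + 1 : ℕ) : ℝ)) * Real.log A + c0 ≤ 7 / 10 * s := by
    have h1 : (((K + 1 : ℕ) : ℝ)) * Real.log A ≤ ((K : ℝ) + 1) * (26 / 10 * l) := by
      push_cast
      exact mul_le_mul_of_nonneg_left hlogA' (by linarith)
    have h2 : ((K : ℝ) + 1) * (26 / 10 * l) ≤ 26 / 10 * (s / 4) + 26 / 10 * l := by linarith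
    have h3 : l ≤ u := by linarith
    have h4 : u ≤ s / 1000 := by linarith
    linarith
  have hA1 : 1 ≤ A := by
    have a1 : (1 : ℝ) ≤ (K : ℝ) + 1 := by linarith
    have a2 : (1 : ℝ) ≤ (1 + 2 * L) ^ 2 := one_le_pow₀ (by linarith)
    have a3 := one_le_mul_of_one_le_of_one_le a1 a2
    exact one_le_mul_of_one_le_of_one_le (by linarith) a3
  have ho1 : (0 : ℝ) < (o₁ : ℝ) + 1 := by positivity
  have hAK : ((o₁ : ℝ) + 1) * A ^ (K + 1) ≤ Real.exp (7 / 10 * s) := by
    rw [← Real.log_le_iff_le_exp (by positivity), Real.log_mul ho1.ne' (by positivity), Real.log_pow]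
    linarith
  have hAX : ((o₁ : ℝ) + 1) * A ^ K ≤ X := by
    have h1 : ((o₁ : ℝ) + 1) * A ^ K ≤ ((o₁ : ℝ) + 1) * A ^ (K + 1) :=
      mul_le_mul_of_nonneg_left (pow_le_pow_right₀ hA1 (by omega)) ho1.le
    have h2 : Real.exp (7 / 10 * s) ≤ X := by
      rw [← Real.exp_log hXpos, Real.exp_le_exp]
      linarith
    linarith
  have hmain := zero_le hF h₁ hX1 hA hAX z y hy0'
  have hScard : (S.card : ℝ) ≤ (((Ioc 0 X).filter fun n => F.Van n 1).card : ℝ) := by
    have h1 : S ⊆ (Ioc 0 X).filter fun n => F.Van n 1 := by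
      intro n hn
      obtain ⟨h2, h3, h4⟩ := hS n hn
      exact Finset.mem_filter.2 ⟨Finset.mem_Ioc.2 ⟨h2, h3⟩, h4⟩
    exact_mod_cast Finset.card_le_card h1
  -- the three terms
  have t1 : X * (1 + L) ^ z / ((z : ℝ) + 1) ^ (K + 1) ≤ X * Real.exp (-(s / 17)) := by
    rw [mul_div_assoc]
    refine mul_le_mul_of_nonneg_left ?_ hXpos.le
    rw [← Real.log_le_iff_le_exp (by positivity), Real.log_div (by positivity) (by positivity),
      Real.log_pow, Real.log_pow]
    have h1 : (z : ℝ) * Real.log (1 + L) ≤ u * (2 * l) :=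
      mul_le_mul hz1 hlog1L (Real.log_nonneg (by linarith)) hu0
    have h2 : u * (2 * l) ≤ s / 500 := by
      have h0 : u * (2 * l) ≤ u * (u / 500) := mul_le_mul_of_nonneg_left (by linarith) hu0
      have e0 : u * (u / 500) = u ^ 2 / 500 := by ring
      linarith
    have h3 : (((K + 1 : ℕ) : ℝ)) * (l / 4) ≤ ((K + 1 : ℕ) : ℝ) * Real.log ((z : ℝ) + 1) :=
      mul_le_mul_of_nonneg_left hlogz (by positivity)
    push_cast at h3 ⊢
    linarith
  have t2 : (y : ℝ) ^ K ≤ X * Real.exp (-(s / 17)) := by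
    have h1 : (y : ℝ) ^ K ≤ Real.exp (L - s / 17) := by
      rw [← Real.log_le_iff_le_exp (by positivity), Real.log_pow]
      have h2 : Real.log y ≤ 1 + s := by
        have h3 := Real.log_le_log (by linarith) hy2
        rw [Real.log_mul (by norm_num) (Real.exp_pos s).ne', Real.log_exp] at h3
        have h4 := Real.log_two_lt_d9
        linarith
      have h3 : (K : ℝ) * Real.log y ≤ s / (4 * l) * (1 + s) :=
        mul_le_mul hK1 h2 (Real.log_nonneg hy0) hsl
      have h4 : s / (4 * l) * (1 + s) = s / (4 * l) + L / 4 := by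
        have h5 : s / (4 * l) * s = L / 4 := by
          rw [div_mul_eq_mul_div, ← sq, hs2]
          field_simp
        linarith
      have h5 : s / (4 * l) ≤ s / 4 := by
        rw [div_le_div_iff_of_pos_left]
        · linarith
        · linarith
        · positivity
        · norm_num
      linarith
    refine h1.trans (le_of_eq ?_)
    rw [sub_eq_add_neg, Real.exp_add, hL, Real.exp_log hXpos]
  have t3 : (X / y : ℝ) * (((o₁ : ℝ) + 1) * A ^ (K + 1)) ≤ X * Real.exp (-(s / 17)) := by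
    have h1 : (X / y : ℝ) ≤ X * Real.exp (-s) := by
      rw [div_eq_mul_inv, Real.exp_neg]
      exact mul_le_mul_of_nonneg_left (inv_anti₀ (Real.exp_pos s) hy1) hXpos.le
    calc (X / y : ℝ) * (((o₁ : ℝ) + 1) * A ^ (K + 1))
        ≤ (X * Real.exp (-s)) * Real.exp (7 / 10 * s) := by
          refine mul_le_mul h1 hAK (by positivity) (by positivity)
      _ = X * Real.exp (-s + 7 / 10 * s) := by rw [mul_assoc, ← Real.exp_add]
      _ ≤ _ := by
          refine mul_le_mul_of_nonneg_left ?_ hXpos.le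
          rw [Real.exp_le_exp]
          linarith
  have t4 : 3 * (X * Real.exp (-(s / 17))) ≤ X * Real.exp (-(s / 20)) := by
    have h1 : Real.exp (-(s / 20)) = Real.exp (-(s / 17)) * Real.exp (s * (3 / 340)) := by
      rw [← Real.exp_add]
      congr 1
      ring
    have h2 : 3 ≤ Real.exp (s * (3 / 340)) := by
      have := Real.add_one_le_exp (s * (3 / 340))
      linarith
    rw [h1]
    have h3 : 0 ≤ X * Real.exp (-(s / 17)) := by positivity
    have h4 := mul_le_mul_of_nonneg_left h2 h3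
    linarith
  linarith

end Pool.Agent.U476.ZO
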