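import Pool.Agent.U476.ZO.Inst

/-! The sum of the absolute values of the logarithms. -/

set_option autoImplicit false

namespace Pool.Agent.U476.ZO

open Finset
open Pool.Agent.U476.NB

variable {s : ℕ} (kn : Fin s → ℕ × List (ℕ × Bool)) (P : MvPolynomial (Option (Fin s)) ℤ)

theorem rel_abs {r : ℕ} (hr : 2 ≤ r)
    {μ₀ : ℂ} (h₀ : μ₀ ∈ primitiveRoots (2 * r) ℂ) (hne : GC kn P r μ₀ ≠ 0) :
    ∑ μ ∈ primitiveRoots (2 * r) ℂ, |Real.log ‖GC kn P r μ‖| ≤
      2 * (G0 kn P * (r * Real.log r ^ 2)) := by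
  have : NeZero r := ⟨by omega⟩
  obtain ⟨hall, -, -⟩ := rel_main kn P hr h₀ hne
  obtain ⟨M, hM1, hM2⟩ := conj_prod' P (kn := kn) r (by omega)
  have hM := hM2 μ₀ h₀ hne
  have hP : 1 ≤ ∏ μ ∈ primitiveRoots (2 * r) ℂ, ‖GC kn P r μ‖ := by
    rw [← norm_prod, ← hM1]
    have h3 : (1 : ℝ) ≤ |(M : ℝ)| := by
      have := Int.one_le_abs hM
      exact_mod_cast this
    simpa using h3
  have hsum : 0 ≤ ∑ μ ∈ primitiveRoots (2 * r) ℂ, Real.log ‖GC kn P r μ‖ := by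
    rw [← Real.log_prod (fun μ hμ => norm_ne_zero_iff.2 (hall μ hμ))]
    exact Real.log_nonneg hP
  have h1 : ∀ μ ∈ primitiveRoots (2 * r) ℂ, |Real.log ‖GC kn P r μ‖| ≤
      2 * (A1 P + P.totalDegree * ∑ i, UU kn r μ i) - Real.log ‖GC kn P r μ‖ := by
    intro μ hμ
    have h2 := GC_log_le kn P hr (isPrimitiveRoot_of_mem_primitiveRoots hμ) (hall μ hμ)
    have h3 : 0 ≤ A1 P + P.totalDegree * ∑ i, UU kn r μ i := by
      have h1 := A1_nonneg P
      have h2 : 0 ≤ ∑ i, UU kn r μ i := Finset.sum_nonneg fun i _ => UU_nonneg kn r μ i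
      positivity
    rw [abs_le]
    constructor <;> linarith
  refine (Finset.sum_le_sum h1).trans ?_
  rw [Finset.sum_sub_distrib, ← Finset.mul_sum]
  have h2 := sum_bd kn P hr
  linarith

end Pool.Agent.U476.ZO
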