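import Pool.Agent.U476.ZO.Near
import Pool.Agent.U476.ZO.Circ

/-! The norm of the leading coefficient. -/

set_option autoImplicit false

namespace Pool.Agent.U476.ZO

open Finset Polynomial
open Pool.Agent.H550R3.Jones (br brf)
open Pool.Agent.U476.NB (WW sum_WW totient_le_half)

/-- The growth condition. -/
def Gr (F : HF) (C : ℝ) : Prop := 0 ≤ C ∧ ∀ (M : ℕ), 1 ≤ M → ∀ (z : ℂ) (β : ℝ), z ≠ 0 → 0 ≤ β →
  (∀ j : ℤ, |j| ≤ 8 * (M : ℤ) ^ 2 → ‖z ^ j‖ ≤ 3) →
  (∀ k < M, brf z k ≠ 0 ∧ |Real.log ‖brf z k‖| ≤ β) →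
  ‖aeval z (F.f M)‖ ≤ Real.exp (C * (1 + Real.log M + β)) * ‖z‖ ^ F.k M

lemma WW_nonneg (m : ℕ) [NeZero m] (q : ℂ) : 0 ≤ WW m q := by rw [WW]; positivity

lemma sum_WW' (m : ℕ) [NeZero m] :
    ∑ μ ∈ primitiveRoots (2 * m) ℂ, WW m (μ ^ 2) ≤ 2 * m * Real.log m * (1 + Real.log m) := by
  have hm : 0 < m := Nat.pos_of_neZero m
  rcases Nat.eq_or_lt_of_le (Nat.succ_le_of_lt hm) with h1 | h1
  · have : m = 1 := by omega
    subst this
    have h2 : ∀ q : ℂ, WW 1 q = 0 := by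
      intro q
      rw [WW]
      have : ∀ h : ZMod 1, h.val = 0 := fun h => by
        have := h.val_lt
        omega
      simp [this]
    simp [h2]
  · exact sum_WW m h1

lemma neg_log_rho {M : ℕ} (hM : 1 ≤ M) : -Real.log (rho M) ≤ 4 * (1 + Real.log M) ∧
    0 ≤ -Real.log (rho M) := by
  have hM1 : (1 : ℝ) ≤ M := by exact_mod_cast hM
  have h1 : -Real.log (rho M) = Real.log 16 + 4 * Real.log M := by
    rw [rho, Real.log_inv, neg_neg, Real.log_mul (by norm_num) (by positivity), Real.log_pow]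
    push_cast; ring
  have h2 : Real.log 16 ≤ 4 := by
    have : (16 : ℝ) = 2 ^ 4 := by norm_num
    rw [this, Real.log_pow]
    have := Real.log_two_lt_d9
    push_cast
    linarith
  have h3 : 0 ≤ Real.log M := Real.log_nonneg hM1
  have h4 : 0 ≤ Real.log 16 := Real.log_nonneg (by norm_num)
  rw [h1]
  constructor <;> linarith

theorem log_NN_le {F : HF} {C : ℝ} (hF : Gr F C) {m o : ℕ} (hm : 0 < m) {G : ℤ[X]}
    (hG : F.f ((o + 1) * m) = Ph m ^ o * G) (hnd : ¬ Ph m ∣ G) :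
    Real.log (NN (2 * m) G) ≤
      (9 * C + 4) * (m * ((o : ℝ) + 1) * (1 + Real.log (((o + 1) * m : ℕ) : ℝ)) ^ 2) := by
  have : NeZero m := ⟨by omega⟩
  obtain ⟨hC, hgr⟩ := hF
  set M := (o + 1) * m with hMd
  have hmM : m ≤ M := Nat.le_mul_of_pos_left m (by omega)
  have hM1 : 1 ≤ M := by omega
  have hMr : (1 : ℝ) ≤ M := by exact_mod_cast hM1
  have hρ := rho_pos hm hmM
  have hρ1 : rho M < 1 := by
    have := rho_le hm hmM 0 (by omega)
    rw [pow_zero, mul_one] at this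
    linarith
  obtain ⟨hl1, hl2⟩ := neg_log_rho hM1
  have hLm : 0 ≤ Real.log m := Real.log_natCast_nonneg m
  have hLmM : Real.log m ≤ Real.log M :=
    Real.log_le_log (by exact_mod_cast hm) (by exact_mod_cast hmM)
  set Λ := 1 + Real.log M with hΛ
  have hΛ1 : 1 ≤ Λ := by linarith
  set R : ℝ := (o : ℝ) + 1 with hR
  have ho : (0 : ℝ) ≤ o := Nat.cast_nonneg o
  have hR1 : 1 ≤ R := by linarith
  set β : ℂ → ℝ := fun ζ => 1 + R * (Real.log m - Real.log (rho M)) + WW m (ζ ^ 2) with hβ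
  have hβ0 : ∀ ζ, 0 ≤ β ζ := by
    intro ζ
    have := WW_nonneg m (ζ ^ 2)
    have h2 : 0 ≤ R * (Real.log m - Real.log (rho M)) := mul_nonneg (by linarith) (by linarith)
    simp only [hβ]
    linarith
  have hmain := NN_le hm hρ hρ1 (F.k M) o (F.f M) G hG
    (fun ζ => Real.exp (C * (1 + Real.log M + β ζ))) (by
      intro ζ hζ z hz
      have hζ' := isPrimitiveRoot_of_mem_primitiveRoots hζ
      refine hgr M hM1 z (β ζ) (norm_pos_iff.1 (z_log hm hmM hζ' hz).1) (hβ0 ζ)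
        (fun j hj => z_pow hm hmM hζ' hz j hj) fun k hk => ?_
      obtain ⟨h1, h2⟩ := brf_near hm hmM hζ' hz hk
      refine ⟨h1, h2.trans ?_⟩
      have h3 : ((k / m : ℕ) : ℝ) ≤ R := by
        have h4 : k / m ≤ o + 1 := by
          have := (Nat.div_lt_iff_lt_mul hm).2 hk
          omega
        have : ((k / m : ℕ) : ℝ) ≤ ((o + 1 : ℕ) : ℝ) := by exact_mod_cast h4
        push_cast at this
        exact this
      have h5 := mul_le_mul_of_nonneg_right h3
        (show 0 ≤ Real.log m - Real.log (rho M) by linarith)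
      simp only [hβ]
      linarith)
  have hpos : 0 < NN (2 * m) G := lt_of_lt_of_le one_pos (one_le_NN (by omega) G hnd)
  have h1 := Real.log_le_log hpos hmain
  refine h1.trans ?_
  rw [Real.log_prod (fun ζ _ => by positivity)]
  have h2 : ∀ ζ ∈ primitiveRoots (2 * m) ℂ,
      Real.log (Real.exp (C * (1 + Real.log M + β ζ)) / rho M ^ o) ≤
        (7 * C + 4) * (R * Λ) + C * WW m (ζ ^ 2) := by
    intro ζ _
    rw [Real.log_div (by positivity) (by positivity), Real.log_exp, Real.log_pow]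
    have hW := WW_nonneg m (ζ ^ 2)
    have h3 : 1 + Real.log M + β ζ ≤ 7 * (R * Λ) + WW m (ζ ^ 2) := by
      simp only [hβ]
      have h4 : R * (Real.log m - Real.log (rho M)) ≤ R * (5 * Λ) :=
        mul_le_mul_of_nonneg_left (by linarith) (by linarith)
      have h5 : Λ ≤ R * Λ := by nlinarith
      nlinarith
    have h4 := mul_le_mul_of_nonneg_left h3 hC
    have h5 : -((o : ℝ) * Real.log (rho M)) ≤ 4 * (R * Λ) := by
      have h6 : (o : ℝ) * (-Real.log (rho M)) ≤ R * (4 * Λ) :=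
        mul_le_mul (by linarith) hl1 hl2 (by linarith)
      linarith
    linarith
  refine (Finset.sum_le_sum h2).trans ?_
  rw [Finset.sum_add_distrib, Finset.sum_const, nsmul_eq_mul, ← Finset.mul_sum]
  have hcard : ((primitiveRoots (2 * m) ℂ).card : ℝ) ≤ m := by
    rw [Complex.card_primitiveRoots]
    exact_mod_cast totient_le_half m
  have hm0 : (0 : ℝ) < m := by exact_mod_cast hm
  have hRΛ : 0 ≤ (7 * C + 4) * (R * Λ) := by positivity
  have h3 := mul_le_mul_of_nonneg_right hcard hRΛ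
  have h4 := mul_le_mul_of_nonneg_left (sum_WW' m) hC
  have h5 : 2 * (m : ℝ) * Real.log m * (1 + Real.log m) ≤ 2 * m * Λ * Λ := by
    have a1 : Real.log m ≤ Λ := by linarith
    have a2 : 1 + Real.log m ≤ Λ := by linarith
    have a3 : 2 * (m : ℝ) * Real.log m ≤ 2 * m * Λ := by nlinarith
    exact mul_le_mul a3 a2 (by linarith) (by positivity)
  have h6 : C * (2 * (m : ℝ) * Real.log m * (1 + Real.log m)) ≤ C * (2 * m * Λ * Λ) :=
    mul_le_mul_of_nonneg_left h5 hC
  have h7 : (m : ℝ) * ((7 * C + 4) * (R * Λ)) ≤ (7 * C + 4) * (m * R * Λ ^ 2) := by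
    have : (m : ℝ) * R * Λ ≤ m * R * Λ ^ 2 := by
      have : 0 ≤ (m : ℝ) * R * Λ := by positivity
      nlinarith
    have h8 : 0 ≤ 7 * C + 4 := by linarith
    nlinarith [mul_le_mul_of_nonneg_left this h8]
  have h8 : C * (2 * (m : ℝ) * Λ * Λ) ≤ 2 * C * (m * R * Λ ^ 2) := by
    have : (m : ℝ) * Λ ^ 2 ≤ m * R * Λ ^ 2 := by
      have : 0 ≤ (m : ℝ) * Λ ^ 2 := by positivity
      nlinarith
    nlinarith [mul_le_mul_of_nonneg_left this hC]
  nlinarith

end Pool.Agent.U476.ZO
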