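import Pool.Agent.U476.ZO.Up
import Pool.Agent.U476.ZO.Count

/-! The function of Habiro's type of a polynomial relation between knots. -/

set_option autoImplicit false

namespace Pool.Agent.U476.ZO

open Finset Polynomial
open Pool.Agent.U476.NB
open Pool.Agent.H550R3.Jones (br brf gen rep)

section inst

variable {s : ℕ} (kn : Fin s → ℕ × List (ℕ × Bool)) (P : MvPolynomial (Option (Fin s)) ℤ)

/-- the values over a ring, labels less than `M` -/
def gvU {A : Type} [CommRing A] (M : ℕ) (u : Aˣ) : Option (Fin s) → A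
  | none => (u : A) ^ 2
  | some i => uj M (kn i).1 (kn i).2 u

/-- the value of the polynomial over a ring -/
noncomputable def GU {A : Type} [CommRing A] (M : ℕ) (u : Aˣ) : A :=
  MvPolynomial.aeval (gvU kn M u) P

lemma map_GU {A B : Type} [CommRing A] [CommRing B] (φ : A →+* B) (M : ℕ) (u : Aˣ) :
    φ (GU kn P M u) = GU kn P M (Units.map (φ : A →* B) u) := by
  have h : (fun o => φ (gvU kn M u o)) = gvU kn M (Units.map (φ : A →* B) u) := by
    funext o
    cases o with
    | none => simp [gvU]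
    | some i => rw [gvU, gvU, map_uj]
  rw [GU, GU, map_aev, h]

lemma GU_eq {A : Type} [CommRing A] (N : ℕ) (v : Aˣ) (hv : v ^ N = -1) :
    GU kn P N v = GG kn P N v := by
  have h : gvU kn N v = gv kn N v := by
    funext o
    cases o with
    | none => rfl
    | some i => rw [gvU, gv, uj_eq_cj N v hv]
  rw [GU, GG, h]

lemma GU_cong {A : Type} [CommRing A] (hw : Kn kn) (v : Aˣ) {K M : ℕ} (hK : K ≤ M) :
    ∏ c ∈ range K, gbr v ((c : ℤ) + 1) ∣ GU kn P M v - GU kn P K v := by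
  set d := ∏ c ∈ range K, gbr v ((c : ℤ) + 1) with hd
  set π := Ideal.Quotient.mk (Ideal.span {d}) with hπ
  have h1 : gvU kn M (Units.map (π : A →* A ⧸ Ideal.span {d}) v) =
      gvU kn K (Units.map (π : A →* A ⧸ Ideal.span {d}) v) := by
    funext o
    cases o with
    | none => rfl
    | some i =>
      rw [gvU, gvU, ← map_uj, ← map_uj, ← sub_eq_zero, ← map_sub, Ideal.Quotient.eq_zero_iff_mem,
        Ideal.mem_span_singleton]
      exact uj_cong v hK (kn i).1 (kn i).2 (hw i)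
  rw [← Ideal.mem_span_singleton, ← Ideal.Quotient.eq_zero_iff_mem, map_sub, sub_eq_zero,
    map_GU, map_GU, GU, GU, h1]

/-- the unit `T` -/
noncomputable def Tu : (LaurentPolynomial ℤ)ˣ where
  val := LaurentPolynomial.T 1
  inv := LaurentPolynomial.T (-1)
  val_inv := by rw [← LaurentPolynomial.T_add]; simp
  inv_val := by rw [← LaurentPolynomial.T_add]; simp

lemma Tu_zpow (n : ℤ) : ((Tu ^ n : (LaurentPolynomial ℤ)ˣ) : LaurentPolynomial ℤ) =
    LaurentPolynomial.T n := by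
  obtain ⟨k, rfl | rfl⟩ := Int.eq_nat_or_neg n
  · rw [zpow_natCast, Units.val_pow_eq_pow_val]
    have : (Tu : LaurentPolynomial ℤ) = LaurentPolynomial.T 1 := rfl
    rw [this, LaurentPolynomial.T_pow, mul_one]
  · rw [zpow_neg, zpow_natCast, ← inv_pow, Units.val_pow_eq_pow_val]
    have : ((Tu⁻¹ : (LaurentPolynomial ℤ)ˣ) : LaurentPolynomial ℤ) = LaurentPolynomial.T (-1) := rfl
    rw [this, LaurentPolynomial.T_pow, mul_neg, mul_one]

/-- the Laurent polynomial -/
noncomputable def LU (M : ℕ) : LaurentPolynomial ℤ := GU kn P M Tu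

noncomputable def kk (M : ℕ) : ℕ := (LaurentPolynomial.exists_T_pow (LU kn P M)).choose

noncomputable def ff (M : ℕ) : ℤ[X] :=
  (LaurentPolynomial.exists_T_pow (LU kn P M)).choose_spec.choose

lemma ff_spec (M : ℕ) : toLaurent (ff kn P M) = LU kn P M * LaurentPolynomial.T (kk kn P M) :=
  (LaurentPolynomial.exists_T_pow (LU kn P M)).choose_spec.choose_spec

lemma DD_dvd (K : ℕ) : toLaurent (DD K) ∣ ∏ c ∈ range K, gbr Tu ((c : ℤ) + 1) := by
  rw [DD, map_prod]
  refine Finset.prod_dvd_prod_of_dvd _ _ fun c _ => ?_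
  refine ⟨LaurentPolynomial.T (-((c : ℤ) + 1)), ?_⟩
  rw [gbr, Tu_zpow, Tu_zpow, map_sub, toLaurent_X_pow, map_one, sub_mul, one_mul,
    ← LaurentPolynomial.T_add]
  congr 2
  push_cast
  ring

lemma ff_cong (hw : Kn kn) (K M : ℕ) (hK : K ≤ M) : ∃ (e : ℕ) (h : ℤ[X]),
    X ^ (e + kk kn P K) * ff kn P M = X ^ (e + kk kn P M) * ff kn P K + DD K * h := by
  obtain ⟨g, hg⟩ := (DD_dvd K).trans (GU_cong kn P hw Tu hK)
  obtain ⟨e, h', he⟩ := LaurentPolynomial.exists_T_pow g
  refine ⟨e, X ^ (kk kn P M + kk kn P K) * h', ?_⟩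
  apply toLaurent_injective
  rw [map_mul, map_add, map_mul, map_mul, map_mul, toLaurent_X_pow, toLaurent_X_pow,
    toLaurent_X_pow, ff_spec, ff_spec, he]
  have h1 : LU kn P M = LU kn P K + toLaurent (DD K) * g := by
    rw [LU, LU]
    rw [← hg]
    ring
  rw [h1]
  push_cast
  rw [LaurentPolynomial.T_add, LaurentPolynomial.T_add, LaurentPolynomial.T_add]
  ring

/-- The function of Habiro's type. -/
noncomputable def FF (hw : Kn kn) : HF where
  f := ff kn P
  k := kk kn P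
  cong := fun K M hK => ff_cong kn P hw K M hK

lemma aeval_ff (u : ℂˣ) (M : ℕ) :
    aeval (u : ℂ) (ff kn P M) = GU kn P M u * (u : ℂ) ^ kk kn P M := by
  have h1 := congrArg (LaurentPolynomial.eval₂ (algebraMap ℤ ℂ) u) (ff_spec kn P M)
  rw [LaurentPolynomial.eval₂_toLaurent, map_mul, LaurentPolynomial.eval₂_T_n, LU, map_GU] at h1
  have h2 : Units.map ((LaurentPolynomial.eval₂ (algebraMap ℤ ℂ) u : LaurentPolynomial ℤ →+* ℂ) :
      LaurentPolynomial ℤ →* ℂ) Tu = u := by
    apply Units.ext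
    rw [Units.coe_map]
    change (LaurentPolynomial.eval₂ (algebraMap ℤ ℂ) u) (LaurentPolynomial.T 1) = (u : ℂ)
    rw [LaurentPolynomial.eval₂_T, zpow_one]
  rw [h2] at h1
  rw [aeval_def]
  exact h1

/-- the constant of the growth condition -/
noncomputable def CC : ℝ :=
  A1 P + P.totalDegree * (2 + ∑ i, (2 * ((kn i).1 : ℝ) + 5 * (kn i).2.length))

lemma GU_le {M : ℕ} {u : ℂˣ} {β : ℝ}
    (hz : ∀ j : ℤ, |j| ≤ 8 * (M : ℤ) ^ 2 → ‖(u : ℂ) ^ j‖ ≤ 3)
    (hb : ∀ k < M, brf (u : ℂ) k ≠ 0 ∧ |Real.log ‖brf (u : ℂ) k‖| ≤ β) (hβ : 0 ≤ β) (hM : 1 ≤ M) :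
    ‖GU kn P M u‖ ≤ Real.exp (CC kn P * (1 + Real.log M + β)) := by
  have hMr : (1 : ℝ) ≤ M := by exact_mod_cast hM
  have hL : 0 ≤ Real.log M := Real.log_nonneg hMr
  set t := 1 + Real.log M + β with ht
  have ht1 : 1 ≤ t := by linarith
  set S : ℝ := ∑ i, (2 * ((kn i).1 : ℝ) + 5 * (kn i).2.length) with hS
  have hS0 : 0 ≤ S := Finset.sum_nonneg fun i _ => by positivity
  have hB : 1 ≤ Real.exp ((2 + S) * t) := Real.one_le_exp (by positivity)
  have hf : ∀ o, ‖gvU kn M u o‖ ≤ Real.exp ((2 + S) * t) := by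
    intro o
    cases o with
    | none =>
      have h1 := (pow_le3 hz 2 (by nlinarith)).1
      refine h1.trans ?_
      have h2 : (3 : ℝ) ≤ Real.exp 2 := by
        have := Real.add_one_le_exp 2
        linarith
      refine h2.trans ?_
      rw [Real.exp_le_exp]
      nlinarith
    | some i =>
      refine (uj_exp hz hb hβ hM (kn i).1 (kn i).2).trans ?_
      rw [Real.exp_le_exp]
      refine mul_le_mul_of_nonneg_right ?_ (by linarith)
      have h1 := Finset.single_le_sum (f := fun i => 2 * ((kn i).1 : ℝ) + 5 * (kn i).2.length)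
        (fun i _ => by positivity) (mem_univ i)
      linarith
  have h1 := aev_le P (gvU kn M u) hB hf
  have hA : 0 ≤ ∑ d ∈ P.support, |((P.coeff d : ℤ) : ℝ)| := Finset.sum_nonneg fun _ _ => abs_nonneg _
  have hA1 : (∑ d ∈ P.support, |((P.coeff d : ℤ) : ℝ)|) ≤ Real.exp (A1 P) := by
    rw [A1, Real.exp_log (by linarith)]
    linarith
  have hA0 := A1_nonneg P
  refine h1.trans ?_
  calc (∑ d ∈ P.support, |((P.coeff d : ℤ) : ℝ)|) * Real.exp ((2 + S) * t) ^ P.totalDegree
      ≤ Real.exp (A1 P) * Real.exp ((2 + S) * t) ^ P.totalDegree :=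
        mul_le_mul_of_nonneg_right hA1 (by positivity)
    _ = Real.exp (A1 P + P.totalDegree * ((2 + S) * t)) := by
        rw [← Real.exp_nat_mul, ← Real.exp_add]
    _ ≤ Real.exp (CC kn P * t) := by
        rw [Real.exp_le_exp, CC, ← hS]
        have : A1 P ≤ A1 P * t := by nlinarith
        nlinarith

theorem FF_gr (hw : Kn kn) : Gr (FF kn P hw) (CC kn P) := by
  refine ⟨?_, ?_⟩
  · have := A1_nonneg P
    rw [CC]
    have : 0 ≤ ∑ i, (2 * ((kn i).1 : ℝ) + 5 * (kn i).2.length) :=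
      Finset.sum_nonneg fun i _ => by positivity
    positivity
  · intro M hM z β hz0 hβ hz hb
    have h1 := aeval_ff kn P (Units.mk0 z hz0) M
    rw [Units.val_mk0] at h1
    change ‖aeval z (ff kn P M)‖ ≤ _ * ‖z‖ ^ kk kn P M
    rw [h1, norm_mul, norm_pow]
    refine mul_le_mul_of_nonneg_right ?_ (by positivity)
    exact GU_le kn P (u := Units.mk0 z hz0) hz hb hβ hM

lemma van_iff (hw : Kn kn) {N : ℕ} (hN : 0 < N) {μ : ℂ} (hμ : IsPrimitiveRoot μ (2 * N)) :
    (FF kn P hw).Van N 1 ↔ GC kn P N μ = 0 := by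
  have h0 : μ ≠ 0 := hμ.ne_zero (by omega)
  have hpow : μ ^ N = -1 := by
    have h2 : (μ ^ N - 1) * (μ ^ N + 1) = 0 := by
      have := hμ.pow_eq_one
      rw [two_mul, pow_add] at this
      linear_combination this
    rcases mul_eq_zero.1 h2 with h | h
    · exact absurd (sub_eq_zero.1 h) (hμ.pow_ne_one_of_pos_of_lt (by omega) (by omega))
    · exact eq_neg_of_add_eq_zero_left h
  have h1 : (FF kn P hw).Van N 1 ↔ Ph N ∣ ff kn P N := by
    constructor
    · intro h
      have := HF.van_all hN h N (by omega)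
      rwa [pow_one] at this
    · intro h
      exact ⟨N, by omega, by rw [pow_one]; exact h⟩
  rw [h1, Ph, dvd_iff (by omega : 0 < 2 * N) hμ]
  have h3 := aeval_ff kn P (Units.mk0 μ h0) N
  rw [Units.val_mk0] at h3
  rw [h3]
  have h4 : (Units.mk0 μ h0) ^ N = -1 := by
    apply Units.ext
    rw [Units.val_pow_eq_pow_val, Units.val_mk0, hpow]
    simp
  rw [GU_eq kn P N _ h4, GG_eq kn P _ (N := N) (by
    rw [Units.val_mk0]
    exact fun k h0 hk => br_ne_prim hμ k h0 hk), Units.val_mk0]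
  constructor
  · intro h
    rcases mul_eq_zero.1 h with h | h
    · exact h
    · exact absurd h (pow_ne_zero _ h0)
  · intro h
    rw [h, zero_mul]

/-- If the order is finite at the level `1` then it is finite at all levels. -/
lemma finite_all {F : HF} (h1 : ∃ r, ¬ F.Van 1 r) : ∀ m : ℕ, 0 < m → ∃ r, ¬ F.Van m r := by
  intro m
  induction m using Nat.strong_induction_on with
  | _ m ih =>
    intro hm
    rcases Nat.eq_or_lt_of_le (Nat.succ_le_of_lt hm) with h2 | h2
    · have : m = 1 := by omega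
      subst this
      exact h1
    · have hp := Nat.minFac_prime (n := m) (by omega)
      obtain ⟨k, hk⟩ := Nat.minFac_dvd m
      have hk0 : 0 < k := by
        rcases Nat.eq_zero_or_pos k with h0 | h0
        · rw [h0, mul_zero] at hk; omega
        · exact h0
      have hkm : k < m := by
        have := hp.two_le
        nlinarith
      have e : m = k * m.minFac ^ 1 := by rw [pow_one, mul_comm]; exact hk
      obtain ⟨r, hr⟩ := ih k hkm hk0
      rw [e]
      exact HF.finite_up hp hk0 one_pos hr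

/-- **Zeros of a relation.** -/
theorem rel_zeros (hw : Kn kn) {root : ℕ → ℂ} (hroot : ∀ N, 1 ≤ N → IsPrimitiveRoot (root N) (2 * N))
    {m : ℕ} (hm : 1 ≤ m) (hne : GC kn P m (root m) ≠ 0) :
    (∃ X₀ : ℕ, ∀ X : ℕ, X₀ ≤ X → ∀ S : Finset ℕ,
      (∀ n ∈ S, 0 < n ∧ n ≤ X ∧ GC kn P n (root n) = 0) →
      (S.card : ℝ) ≤ X * Real.exp (-(√(Real.log X * Real.log (Real.log X)) / 20))) ∧
    ∀ n : ℕ, 1 ≤ n → {Q : ℕ | IsPrimePow Q ∧ GC kn P (n * Q) (root (n * Q)) = 0}.Finite := by
  have hv : ∀ n, 1 ≤ n → ((FF kn P hw).Van n 1 ↔ GC kn P n (root n) = 0) := fun n hn =>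
    van_iff kn P hw hn (hroot n hn)
  have h1 : ¬ (FF kn P hw).Van m 1 := fun h => hne ((hv m hm).1 h)
  have h2 := HF.finite_one m hm 1 h1
  obtain ⟨r, hr⟩ := h2
  obtain ⟨o, -, ho⟩ := HF.exists_ex hr
  have hgr := FF_gr kn P hw
  constructor
  · obtain ⟨X₀, hX₀⟩ := zero_count hgr ho
    refine ⟨X₀, fun X hX S hS => hX₀ X hX S fun n hn => ?_⟩
    obtain ⟨a1, a2, a3⟩ := hS n hn
    exact ⟨a1, a2, (hv n a1).2 a3⟩
  · intro n hn
    obtain ⟨r', hr'⟩ := finite_all ⟨r, hr⟩ n hn
    refine (exc_finite hgr hn hr').subset ?_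
    rintro Q ⟨hQ, hz⟩
    exact ⟨hQ, (hv (n * Q) (Nat.mul_pos hn hQ.pos)).2 hz⟩

end inst

end Pool.Agent.U476.ZO
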