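import Pool.Agent.U476.NB.Up

/-! Quantum factorials near a root of unity. -/

set_option autoImplicit false

namespace Pool.Agent.U476.ZO

open Finset
open Pool.Agent.H550R3.Jones (br brf)
open Pool.Agent.U476.NB (WW sudler br_ne_prim)

lemma one_sub_pow_le {ω : ℂ} (h : ‖ω‖ = 1) (j : ℕ) : ‖1 - ω ^ j‖ ≤ j * ‖1 - ω‖ := by
  induction j with
  | zero => simp
  | succ j ih =>
    have e : 1 - ω ^ (j + 1) = (1 - ω ^ j) + ω ^ j * (1 - ω) := by ring
    rw [e]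
    refine (norm_add_le _ _).trans ?_
    rw [norm_mul, norm_pow, h, one_pow, one_mul]
    push_cast
    linarith

lemma omega_far {m : ℕ} (hm : 0 < m) {ω : ℂ} (h : ω ^ m = 1) (h1 : ω ≠ 1) :
    2 / (m : ℝ) ≤ ‖1 - ω‖ := by
  have hn : ‖ω‖ = 1 := Complex.norm_eq_one_of_pow_eq_one h (by omega)
  have h2 : ∑ j ∈ range m, ω ^ j = 0 := by
    have := geom_sum_mul ω m
    rw [h, sub_self] at this
    rcases mul_eq_zero.1 this with h3 | h3
    · exact h3
    · exact absurd (sub_eq_zero.1 h3) h1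
  have h3 : (m : ℂ) = ∑ j ∈ range m, (1 - ω ^ j) := by
    rw [Finset.sum_sub_distrib, h2]
    simp
  have h4 : (m : ℝ) ≤ ∑ j ∈ range m, (j : ℝ) * ‖1 - ω‖ := by
    have : (m : ℝ) = ‖(m : ℂ)‖ := by simp
    rw [this, h3]
    exact (norm_sum_le _ _).trans (Finset.sum_le_sum fun j _ => one_sub_pow_le hn j)
  rw [← Finset.sum_mul] at h4
  have h5 : (∑ j ∈ range m, (j : ℝ)) * 2 = m * (m - 1) := by
    have := Finset.sum_range_id_mul_two m
    have h6 : (((∑ i ∈ range m, i) * 2 : ℕ) : ℝ) = ((m * (m - 1) : ℕ) : ℝ) := by rw [this]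
    push_cast [Nat.cast_sub (show 1 ≤ m by omega)] at h6
    linarith
  have hm0 : (0 : ℝ) < m := by exact_mod_cast hm
  have h7 := norm_nonneg (1 - ω)
  rw [div_le_iff₀ hm0]
  have h8 : (∑ j ∈ range m, (j : ℝ)) ≤ m * m / 2 := by nlinarith
  have h9 : (m : ℝ) ≤ m * m / 2 * ‖1 - ω‖ := h4.trans (mul_le_mul_of_nonneg_right h8 h7)
  have h10 : (m : ℝ) * 2 ≤ m * (‖1 - ω‖ * m) := by nlinarith
  exact le_of_mul_le_mul_left h10 hm0

lemma pow_err {h : ℂ} : ∀ n : ℕ, (n : ℝ) * ‖h‖ ≤ 1 → ‖(1 + h) ^ n - 1 - n * h‖ ≤ (n * ‖h‖) ^ 2 := by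
  intro n
  induction n with
  | zero => intro _; simp
  | succ n ih =>
    intro hn
    push_cast at hn
    have hr := norm_nonneg h
    have hn' : (n : ℝ) * ‖h‖ ≤ 1 := by nlinarith
    have e : (1 + h) ^ (n + 1) - 1 - ((n + 1 : ℕ) : ℂ) * h =
        (1 + h) * ((1 + h) ^ n - 1 - n * h) + n * h ^ 2 := by
      push_cast; ring
    rw [e]
    refine (norm_add_le _ _).trans ?_
    rw [norm_mul, norm_mul, norm_pow]
    have h1 : ‖1 + h‖ ≤ 1 + ‖h‖ := (norm_add_le _ _).trans (by rw [norm_one])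
    have h2 := mul_le_mul h1 (ih hn') (norm_nonneg _) (by linarith)
    have h3 : ‖(n : ℂ)‖ = n := by simp
    rw [h3]
    have hn0 : (0 : ℝ) ≤ n := Nat.cast_nonneg n
    have h4 : (n : ℝ) ^ 2 * ‖h‖ ≤ n + 1 := by nlinarith
    push_cast
    nlinarith [mul_nonneg hr hr, mul_le_mul_of_nonneg_right h4 (mul_nonneg hr hr)]

lemma logdiff {x y δ : ℝ} (hy : 0 < y) (hδ : δ ≤ 1 / 2) (h : |x - y| ≤ δ * y) :
    0 < x ∧ |Real.log x - Real.log y| ≤ 2 * δ := by
  have h1 := abs_le.1 h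
  have hδ0 : 0 ≤ δ := by
    by_contra h2
    push Not at h2
    have := abs_nonneg (x - y)
    nlinarith
  have hx : 0 < x := by nlinarith
  refine ⟨hx, ?_⟩
  rw [abs_le]
  constructor
  · have h2 := Real.log_le_sub_one_of_pos (div_pos hy hx)
    rw [Real.log_div hy.ne' hx.ne'] at h2
    have h3 : y / x - 1 ≤ 2 * δ := by
      rw [div_sub_one hx.ne', div_le_iff₀ hx]
      nlinarith
    linarith
  · have h2 := Real.log_le_sub_one_of_pos (div_pos hx hy)
    rw [Real.log_div hx.ne' hy.ne'] at h2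
    have h3 : x / y - 1 ≤ δ := by
      rw [div_sub_one hy.ne', div_le_iff₀ hy]
      linarith
    linarith

/-- the radius of the circles -/
noncomputable def rho (M : ℕ) : ℝ := (16 * (M : ℝ) ^ 4)⁻¹

section near

variable {m M : ℕ} (hm : 0 < m) (hmM : m ≤ M) {ζ z : ℂ} (hζ : IsPrimitiveRoot ζ (2 * m))
  (hz : ‖z - ζ‖ = rho M)

include hm hmM

lemma M_pos : (1 : ℝ) ≤ M := by
  have : 1 ≤ M := by omega
  exact_mod_cast this

lemma rho_pos : 0 < rho M := by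
  have := M_pos hm hmM
  rw [rho]
  positivity

lemma rho_mul : rho M * (16 * (M : ℝ) ^ 4) = 1 := by
  have := M_pos hm hmM
  rw [rho]
  exact inv_mul_cancel₀ (by positivity)

lemma rho_le (j : ℕ) (hj : j ≤ 4) : rho M * (M : ℝ) ^ j ≤ 1 / 16 := by
  have h1 := M_pos hm hmM
  have h2 := rho_mul hm hmM
  have h3 : (M : ℝ) ^ j ≤ (M : ℝ) ^ 4 := pow_le_pow_right₀ h1 hj
  have h4 := mul_le_mul_of_nonneg_left h3 (rho_pos hm hmM).le
  linarith

include hζ

omit hmM in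
lemma zeta_norm : ‖ζ‖ = 1 := Complex.norm_eq_one_of_pow_eq_one hζ.pow_eq_one (by omega)

include hz

omit hmM in
lemma z_abs : |‖z‖ - 1| ≤ rho M * 1 := by
  rw [← zeta_norm hm hζ, zeta_norm hm hζ, mul_one, ← hz]
  have := abs_norm_sub_norm_le z ζ
  rwa [zeta_norm hm hζ] at this

lemma z_log : 0 < ‖z‖ ∧ |Real.log ‖z‖| ≤ 2 * rho M := by
  have h1 := rho_le hm hmM 0 (by omega)
  rw [pow_zero, mul_one] at h1
  have h2 := logdiff (x := ‖z‖) (y := 1) (δ := rho M) one_pos (by linarith)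
    (z_abs hm hζ hz)
  rwa [Real.log_one, sub_zero] at h2

lemma z_pow (j : ℤ) (hj : |j| ≤ 8 * (M : ℤ) ^ 2) : ‖z ^ j‖ ≤ 3 := by
  obtain ⟨h1, h2⟩ := z_log hm hmM hζ hz
  have h3 : ‖z ^ j‖ = Real.exp (j * Real.log ‖z‖) := by
    rw [norm_zpow, mul_comm, ← Real.rpow_intCast, Real.rpow_def_of_pos h1]
  have h4 : (j : ℝ) * Real.log ‖z‖ ≤ 1 := by
    have h5 : |(j : ℝ)| ≤ 8 * (M : ℝ) ^ 2 := by exact_mod_cast hj
    have h6 := rho_le hm hmM 2 (by omega)
    calc (j : ℝ) * Real.log ‖z‖ ≤ |(j : ℝ) * Real.log ‖z‖| := le_abs_self _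
      _ = |(j : ℝ)| * |Real.log ‖z‖| := abs_mul _ _
      _ ≤ 8 * (M : ℝ) ^ 2 * (2 * rho M) := mul_le_mul h5 h2 (abs_nonneg _) (by positivity)
      _ ≤ 1 := by nlinarith
  rw [h3]
  have := Real.exp_one_lt_d9
  have h5 := Real.exp_le_exp.2 h4
  linarith

lemma z_pow_err (n : ℕ) (hn : n ≤ 2 * M) :
    ‖z ^ n - ζ ^ n * (1 + n * ((z - ζ) / ζ))‖ ≤ (n * rho M) ^ 2 := by
  have hζ0 : ζ ≠ 0 := hζ.ne_zero (by omega)
  have hh : ‖(z - ζ) / ζ‖ = rho M := by rw [norm_div, hz, zeta_norm hm hζ, div_one]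
  have e : z = ζ * (1 + (z - ζ) / ζ) := by field_simp; ring
  have h1 : z ^ n - ζ ^ n * (1 + n * ((z - ζ) / ζ)) =
      ζ ^ n * ((1 + (z - ζ) / ζ) ^ n - 1 - n * ((z - ζ) / ζ)) := by
    conv_lhs => rw [e, mul_pow]
    have : ζ * (1 + (z - ζ) / ζ) - ζ = z - ζ := by field_simp; ring
    rw [this]
    ring
  rw [h1, norm_mul, norm_pow, zeta_norm hm hζ, one_pow, one_mul]
  have h2 : (n : ℝ) * ‖(z - ζ) / ζ‖ ≤ 1 := by
    rw [hh]
    have h3 := rho_le hm hmM 1 (by omega)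
    have h4 : (n : ℝ) ≤ 2 * M := by exact_mod_cast hn
    have h5 := rho_pos hm hmM
    rw [pow_one] at h3
    nlinarith
  have h3 := pow_err n h2
  rwa [hh] at h3

/-- Exponents which are not divisible by `m`. -/
lemma not_mul {k : ℕ} (hkM : k < M) (hk : ¬ m ∣ k) : 0 < ‖1 - z ^ (2 * k)‖ ∧
    |Real.log ‖1 - z ^ (2 * k)‖ - Real.log ‖1 - (ζ ^ 2) ^ k‖| ≤ 1 / (2 * (M : ℝ) ^ 2) := by
  have hζ0 : ζ ≠ 0 := hζ.ne_zero (by omega)
  have hM1 := M_pos hm hmM
  have hρ := rho_pos hm hmM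
  have h1 : (ζ ^ 2) ^ k ≠ 1 := by
    intro h
    rw [← pow_mul] at h
    have := (hζ.pow_eq_one_iff_dvd _).1 h
    exact hk (Nat.dvd_of_mul_dvd_mul_left (by norm_num) this)
  have h2 : ((ζ ^ 2) ^ k) ^ m = 1 := by
    rw [← pow_mul, ← pow_mul, show 2 * (k * m) = 2 * m * k by ring, pow_mul, hζ.pow_eq_one,
      one_pow]
  have h3 := omega_far hm h2 h1
  have hm0 : (0 : ℝ) < m := by exact_mod_cast hm
  have hy : 0 < ‖1 - (ζ ^ 2) ^ k‖ := lt_of_lt_of_le (by positivity) h3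
  have hkk : (k : ℝ) ≤ M := by exact_mod_cast hkM.le
  have hmm : (m : ℝ) ≤ M := by exact_mod_cast hmM
  -- the difference
  have h4 : ‖z ^ (2 * k) - (ζ ^ 2) ^ k‖ ≤ 4 * M * rho M := by
    have h5 := z_pow_err hm hmM hζ hz (2 * k) (by omega)
    have e : z ^ (2 * k) - (ζ ^ 2) ^ k = (z ^ (2 * k) -
        ζ ^ (2 * k) * (1 + ((2 * k : ℕ) : ℂ) * ((z - ζ) / ζ))) +
        ζ ^ (2 * k) * (((2 * k : ℕ) : ℂ) * ((z - ζ) / ζ)) := by
      rw [← pow_mul]; ring
    rw [e]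
    refine (norm_add_le _ _).trans ?_
    have h6 : ‖ζ ^ (2 * k) * (((2 * k : ℕ) : ℂ) * ((z - ζ) / ζ))‖ = 2 * k * rho M := by
      rw [norm_mul, norm_mul, norm_pow, zeta_norm hm hζ, one_pow, one_mul, norm_div, hz,
        zeta_norm hm hζ, div_one, Complex.norm_natCast]
      push_cast; ring
    rw [h6]
    have hc : (((2 * k : ℕ) : ℝ) * rho M) ^ 2 = (2 * k * rho M) ^ 2 := by push_cast; ring
    rw [hc] at h5
    have h7 : 2 * (k : ℝ) * rho M ≤ 2 * M * rho M := by nlinarith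
    have h8 := rho_le hm hmM 1 (by omega)
    rw [pow_one] at h8
    have h9 : (2 * (k : ℝ) * rho M) ^ 2 ≤ 2 * M * rho M := by
      have h10 : 2 * (k : ℝ) * rho M ≤ 1 := by nlinarith
      have h11 : 0 ≤ 2 * (k : ℝ) * rho M := by positivity
      nlinarith
    linarith
  have h5 : |‖1 - z ^ (2 * k)‖ - ‖1 - (ζ ^ 2) ^ k‖| ≤ 4 * M * rho M := by
    refine (abs_norm_sub_norm_le _ _).trans ?_
    rw [← norm_neg]
    have e : -(1 - z ^ (2 * k) - (1 - (ζ ^ 2) ^ k)) = z ^ (2 * k) - (ζ ^ 2) ^ k := by ring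
    rw [e]
    exact h4
  have h6 : 4 * M * rho M ≤ 1 / (4 * (M : ℝ) ^ 2) * ‖1 - (ζ ^ 2) ^ k‖ := by
    have h7 : 2 / (M : ℝ) ≤ ‖1 - (ζ ^ 2) ^ k‖ :=
      le_trans (div_le_div_of_nonneg_left (by norm_num) hm0 hmm) h3
    have h8 : 4 * M * rho M = 1 / (4 * (M : ℝ) ^ 2) * (1 / M) := by
      rw [rho]; field_simp; ring
    rw [h8]
    refine mul_le_mul_of_nonneg_left ?_ (by positivity)
    refine le_trans ?_ h7
    exact div_le_div_of_nonneg_right (by norm_num) (by linarith)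
  have h7 : 1 / (4 * (M : ℝ) ^ 2) ≤ 1 / 2 := by
    rw [div_le_div_iff₀ (by positivity) (by norm_num)]
    nlinarith
  have h8 := logdiff hy h7 (h5.trans h6)
  refine ⟨h8.1, h8.2.trans (le_of_eq ?_)⟩
  field_simp
  norm_num

/-- Exponents which are divisible by `m`. -/
lemma is_mul {k : ℕ} (h0 : 0 < k) (hkM : k < M) (hk : m ∣ k) : 0 < ‖1 - z ^ (2 * k)‖ ∧
    |Real.log ‖1 - z ^ (2 * k)‖| ≤ -Real.log (rho M) := by
  have hζ0 : ζ ≠ 0 := hζ.ne_zero (by omega)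
  have hM1 := M_pos hm hmM
  have hρ := rho_pos hm hmM
  have hkk : (k : ℝ) ≤ M := by exact_mod_cast hkM.le
  have hk1 : (1 : ℝ) ≤ k := by exact_mod_cast h0
  have h1 : ζ ^ (2 * k) = 1 := by
    obtain ⟨c, rfl⟩ := hk
    rw [← mul_assoc, pow_mul, hζ.pow_eq_one, one_pow]
  have h5 := z_pow_err hm hmM hζ hz (2 * k) (by omega)
  rw [h1, one_mul] at h5
  have h6 : ‖((2 * k : ℕ) : ℂ) * ((z - ζ) / ζ)‖ = 2 * k * rho M := by
    rw [norm_mul, norm_div, hz, zeta_norm hm hζ, div_one, Complex.norm_natCast]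
    push_cast; ring
  have h8 := rho_le hm hmM 1 (by omega)
  rw [pow_one] at h8
  have h10 : 2 * (k : ℝ) * rho M ≤ 1 / 8 := by nlinarith
  have h11 : 0 ≤ 2 * (k : ℝ) * rho M := by positivity
  push_cast at h5 h6
  have h9 : (2 * (k : ℝ) * rho M) ^ 2 ≤ (2 * k * rho M) / 8 := by nlinarith
  have e : 1 - z ^ (2 * k) = -((z ^ (2 * k) - (1 + 2 * (k : ℂ) * ((z - ζ) / ζ))) +
      2 * (k : ℂ) * ((z - ζ) / ζ)) := by ring
  have hlow : rho M ≤ ‖1 - z ^ (2 * k)‖ := by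
    rw [e, norm_neg]
    have h12 := norm_sub_le_norm_add (2 * (k : ℂ) * ((z - ζ) / ζ))
      (z ^ (2 * k) - (1 + 2 * (k : ℂ) * ((z - ζ) / ζ)))
    rw [add_comm (2 * (k : ℂ) * ((z - ζ) / ζ)), h6] at h12
    nlinarith
  have hup : ‖1 - z ^ (2 * k)‖ ≤ 1 := by
    rw [e, norm_neg]
    refine (norm_add_le _ _).trans ?_
    rw [h6]
    linarith
  have hpos : 0 < ‖1 - z ^ (2 * k)‖ := lt_of_lt_of_le hρ hlow
  refine ⟨hpos, ?_⟩
  rw [abs_of_nonpos (Real.log_nonpos hpos.le hup)]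
  have := Real.log_le_log hρ hlow
  linarith

omit hmM hζ hz hm in
lemma br_eq (hz0 : z ≠ 0) (k : ℕ) : br z k = -(z ^ (-(k : ℤ))) * (1 - z ^ (2 * k)) := by
  rw [Pool.Agent.H550R3.Jones.br, pow_mul', pow_two, zpow_neg, zpow_natCast]
  field_simp
  ring

end near

/-- the logarithms at the root of unity -/
noncomputable def cc (m : ℕ) (ζ : ℂ) (k : ℕ) : ℝ := if m ∣ k then 0 else Real.log ‖1 - (ζ ^ 2) ^ k‖

section sum

variable {m : ℕ} (hm : 0 < m) {ζ : ℂ} (hζ : IsPrimitiveRoot ζ (2 * m))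

include hm hζ

lemma q_prim' : IsPrimitiveRoot (ζ ^ 2) m := hζ.pow (by omega) rfl

lemma cc_periodic (x : ℕ) : cc m ζ (x + m) = cc m ζ x := by
  have h1 : (ζ ^ 2) ^ (x + m) = (ζ ^ 2) ^ x := by
    rw [pow_add, (q_prim' hm hζ).pow_eq_one, mul_one]
  rw [cc, cc, h1]
  simp only [Nat.dvd_add_self_right]

lemma cc_full (x : ℕ) : ∑ t ∈ range m, cc m ζ (x + (t + 1)) = Real.log m := by
  have h0 : ∑ t ∈ range m, cc m ζ (t + 1) = Real.log m := by
    obtain ⟨l, rfl⟩ : ∃ l, m = l + 1 := ⟨m - 1, by omega⟩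
    rw [Finset.sum_range_succ]
    have h1 : cc (l + 1) ζ (l + 1) = 0 := by rw [cc, if_pos (dvd_refl _)]
    have hq := q_prim' hm hζ
    have h2 := hq.prod_one_sub_pow_eq_order
    have h3 : ∀ t ∈ range l, cc (l + 1) ζ (t + 1) = Real.log ‖1 - (ζ ^ 2) ^ (t + 1)‖ := by
      intro t ht
      have := mem_range.1 ht
      rw [cc, if_neg (Nat.not_dvd_of_pos_of_lt (by omega) (by omega))]
    rw [h1, add_zero, Finset.sum_congr rfl h3, ← Real.log_prod, ← norm_prod, h2]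
    · congr 1
      have : ((l : ℂ) + 1) = ((l + 1 : ℕ) : ℂ) := by push_cast; ring
      rw [this, Complex.norm_natCast]
    · intro t ht
      have := mem_range.1 ht
      rw [norm_ne_zero_iff, sub_ne_zero]
      exact (hq.pow_ne_one_of_pos_of_lt (by omega) (by omega)).symm
  induction x with
  | zero => simpa using h0
  | succ x ih =>
    have h1 : ∑ t ∈ range (m + 1), cc m ζ (x + (t + 1)) =
        cc m ζ (x + 1) + ∑ t ∈ range m, cc m ζ (x + 1 + (t + 1)) := by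
      rw [Finset.sum_range_succ', add_comm]
      congr 1
      refine Finset.sum_congr rfl fun t _ => ?_
      congr 1; ring
    rw [Finset.sum_range_succ, ih] at h1
    have h2 : cc m ζ (x + (m + 1)) = cc m ζ (x + 1) := by
      rw [show x + (m + 1) = (x + 1) + m by ring, cc_periodic hm hζ]
    rw [h2] at h1
    linarith

lemma cc_sum [NeZero m] : ∀ k : ℕ, |∑ t ∈ range k, cc m ζ (t + 1)| ≤
    ((k / m : ℕ) : ℝ) * Real.log m + WW m (ζ ^ 2) := by
  have hW : 0 ≤ WW m (ζ ^ 2) := by rw [WW]; positivity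
  have hL : 0 ≤ Real.log m := Real.log_natCast_nonneg m
  intro k
  induction k using Nat.strong_induction_on with
  | _ k ih =>
    rcases lt_or_ge k m with h | h
    · rw [Nat.div_eq_of_lt h, Nat.cast_zero, zero_mul, zero_add]
      rcases Nat.eq_or_lt_of_le (Nat.succ_le_of_lt hm) with h1 | h1
      · have : k = 0 := by omega
        subst this
        simpa using hW
      · have h2 := sudler m h1 (ζ ^ 2) (q_prim' hm hζ) k h
        have h3 : ∀ t ∈ range k, cc m ζ (t + 1) = Real.log ‖1 - (ζ ^ 2) ^ (t + 1)‖ := by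
          intro t ht
          have := mem_range.1 ht
          rw [cc, if_neg (Nat.not_dvd_of_pos_of_lt (by omega) (by omega))]
        rw [Finset.sum_congr rfl h3]
        exact h2
    · obtain ⟨c, rfl⟩ : ∃ c, k = c + m := ⟨k - m, by omega⟩
      have h1 := ih c (by omega)
      rw [Finset.sum_range_add, Nat.add_div_right _ hm]
      have h2 := cc_full hm hζ c
      have h3 : ∑ x ∈ range m, cc m ζ (c + x + 1) = Real.log m := by
        rw [← h2]
        refine Finset.sum_congr rfl fun t _ => ?_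
        congr 1
      rw [h3]
      refine (abs_add_le _ _).trans ?_
      rw [abs_of_nonneg hL]
      push_cast
      linarith

end sum

section brf

variable {m M : ℕ} (hm : 0 < m) (hmM : m ≤ M) {ζ z : ℂ} (hζ : IsPrimitiveRoot ζ (2 * m))
  (hz : ‖z - ζ‖ = rho M)

include hm hmM hζ hz

lemma br_near {k : ℕ} (h0 : 0 < k) (hkM : k < M) : 0 < ‖br z k‖ ∧
    |Real.log ‖br z k‖ - cc m ζ k| ≤ 1 / M + (if m ∣ k then 1 else 0) * (-Real.log (rho M)) := by
  obtain ⟨hz1, hz2⟩ := z_log hm hmM hζ hz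
  have hz0 : z ≠ 0 := norm_pos_iff.1 hz1
  have hM1 := M_pos hm hmM
  have hρ := rho_pos hm hmM
  have hkk : (k : ℝ) ≤ M := by exact_mod_cast hkM.le
  have h3 : |(k : ℝ) * Real.log ‖z‖| ≤ 1 / (2 * M) := by
    rw [abs_mul, abs_of_nonneg (Nat.cast_nonneg k)]
    have h4 := rho_le hm hmM 2 (by omega)
    calc (k : ℝ) * |Real.log ‖z‖| ≤ M * (2 * rho M) :=
          mul_le_mul hkk hz2 (abs_nonneg _) (by linarith)
      _ ≤ 1 / (2 * M) := by
          rw [le_div_iff₀ (by positivity)]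
          nlinarith
  have hsplit : ∀ h : 0 < ‖1 - z ^ (2 * k)‖, 0 < ‖br z k‖ ∧
      Real.log ‖br z k‖ = Real.log ‖1 - z ^ (2 * k)‖ - k * Real.log ‖z‖ := by
    intro h
    rw [br_eq hz0, norm_mul, norm_neg, norm_zpow]
    refine ⟨mul_pos (zpow_pos hz1 _) h, ?_⟩
    rw [Real.log_mul (zpow_pos hz1 _).ne' h.ne', Real.log_zpow]
    push_cast
    ring
  by_cases hd : m ∣ k
  · obtain ⟨h5, h6⟩ := is_mul hm hmM hζ hz h0 hkM hd
    obtain ⟨h7, h8⟩ := hsplit h5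
    refine ⟨h7, ?_⟩
    rw [h8, cc, if_pos hd, if_pos hd, sub_zero, one_mul]
    refine (abs_sub _ _).trans ?_
    have : 1 / (2 * (M : ℝ)) ≤ 1 / M := div_le_div_of_nonneg_left (by norm_num) (by linarith)
      (by linarith)
    linarith
  · obtain ⟨h5, h6⟩ := not_mul hm hmM hζ hz hkM hd
    obtain ⟨h7, h8⟩ := hsplit h5
    refine ⟨h7, ?_⟩
    rw [h8, cc, if_neg hd, if_neg hd, zero_mul, add_zero]
    have e : Real.log ‖1 - z ^ (2 * k)‖ - k * Real.log ‖z‖ - Real.log ‖1 - (ζ ^ 2) ^ k‖ =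
        (Real.log ‖1 - z ^ (2 * k)‖ - Real.log ‖1 - (ζ ^ 2) ^ k‖) - k * Real.log ‖z‖ := by ring
    rw [e]
    refine (abs_sub _ _).trans ?_
    have h9 : 1 / (2 * (M : ℝ) ^ 2) ≤ 1 / (2 * M) := by
      apply div_le_div_of_nonneg_left (by norm_num) (by positivity)
      nlinarith
    have h10 : 1 / (2 * (M : ℝ)) + 1 / (2 * M) = 1 / M := by field_simp; norm_num
    linarith

/-- Quantum factorials on the circle. -/
theorem brf_near [NeZero m] {k : ℕ} (hkM : k < M) : brf z k ≠ 0 ∧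
    |Real.log ‖brf z k‖| ≤ 1 + ((k / m : ℕ) : ℝ) * (Real.log m - Real.log (rho M)) +
      WW m (ζ ^ 2) := by
  have hM1 := M_pos hm hmM
  have hb : ∀ j ∈ range k, br z ((j : ℤ) + 1) ≠ 0 := by
    intro j hj
    have hj' := mem_range.1 hj
    have := (br_near hm hmM hζ hz (k := j + 1) (by omega) (by omega)).1
    have h2 := norm_pos_iff.1 this
    exact_mod_cast h2
  have h0 : brf z k ≠ 0 := by
    rw [Pool.Agent.H550R3.Jones.brf]
    exact Finset.prod_ne_zero_iff.2 hb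
  refine ⟨h0, ?_⟩
  have h1 : Real.log ‖brf z k‖ = ∑ j ∈ range k, Real.log ‖br z ((j : ℤ) + 1)‖ := by
    rw [Pool.Agent.H550R3.Jones.brf, norm_prod, Real.log_prod]
    intro j hj
    exact norm_ne_zero_iff.2 (hb j hj)
  have h2 : |∑ j ∈ range k, (Real.log ‖br z ((j : ℤ) + 1)‖ - cc m ζ (j + 1))| ≤
      1 + ((k / m : ℕ) : ℝ) * (-Real.log (rho M)) := by
    refine (Finset.abs_sum_le_sum_abs _ _).trans ?_
    have h3 : ∀ j ∈ range k, |Real.log ‖br z ((j : ℤ) + 1)‖ - cc m ζ (j + 1)| ≤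
        1 / M + (if m ∣ j + 1 then 1 else 0) * (-Real.log (rho M)) := by
      intro j hj
      have hj' := mem_range.1 hj
      have := (br_near hm hmM hζ hz (k := j + 1) (by omega) (by omega)).2
      push_cast at this
      exact this
    refine (Finset.sum_le_sum h3).trans ?_
    rw [Finset.sum_add_distrib, Finset.sum_const, card_range, nsmul_eq_mul, ← Finset.sum_mul]
    have h4 : ∑ j ∈ range k, (if m ∣ j + 1 then (1 : ℝ) else 0) = ((k / m : ℕ) : ℝ) := by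
      rw [Finset.sum_boole]
      congr 1
      exact Nat.card_multiples k m
    rw [h4]
    have h5 : (k : ℝ) * (1 / M) ≤ 1 := by
      rw [mul_one_div, div_le_one (by linarith)]
      exact_mod_cast hkM.le
    linarith
  rw [Finset.sum_sub_distrib, ← h1] at h2
  have h3 := cc_sum hm hζ k
  have h4 : |Real.log ‖brf z k‖| ≤
      |Real.log ‖brf z k‖ - ∑ j ∈ range k, cc m ζ (j + 1)| + |∑ j ∈ range k, cc m ζ (j + 1)| := by
    have := abs_add_le (Real.log ‖brf z k‖ - ∑ j ∈ range k, cc m ζ (j + 1))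
      (∑ j ∈ range k, cc m ζ (j + 1))
    rwa [sub_add_cancel] at this
  linarith

end brf

end Pool.Agent.U476.ZO
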