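import Pool.Agent.U476.ZO.Pol

/-! Orders of vanishing at roots of unity of functions of Habiro's type. -/

set_option autoImplicit false

namespace Pool.Agent.U476.ZO

open Finset Polynomial

/-- `∏_{t < K} (X ^ (2 (t + 1)) - 1)` -/
noncomputable def DD (K : ℕ) : ℤ[X] := ∏ t ∈ range K, (X ^ (2 * (t + 1)) - 1)

/-- A sequence of Laurent polynomials `X ^ (- k M) f M`, congruent modulo `DD`. -/
structure HF where
  f : ℕ → ℤ[X]
  k : ℕ → ℕ
  cong : ∀ K M, K ≤ M → ∃ (e : ℕ) (h : ℤ[X]), X ^ (e + k K) * f M = X ^ (e + k M) * f K + DD K * h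

/-- the cyclotomic polynomial of the level `m` -/
noncomputable abbrev Ph (m : ℕ) : ℤ[X] := cyclotomic (2 * m) ℤ

lemma dvd_DD {m r K : ℕ} (hm : 0 < m) (h : r * m ≤ K) : Ph m ^ r ∣ DD K := by
  have h1 : Ph m ^ r ∣ ∏ i ∈ range r, (X ^ (2 * (m * (i + 1) - 1 + 1)) - 1 : ℤ[X]) := by
    have h2 : Ph m ^ r = ∏ i ∈ range r, Ph m := by rw [Finset.prod_const, card_range]
    rw [h2]
    refine Finset.prod_dvd_prod_of_dvd _ _ fun i _ => ?_
    have h3 : m * (i + 1) - 1 + 1 = m * (i + 1) := by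
      have : 0 < m * (i + 1) := Nat.mul_pos hm (by omega)
      omega
    rw [h3, ← mul_assoc, pow_mul]
    refine (cyclotomic.dvd_X_pow_sub_one (2 * m) ℤ).trans ?_
    have := sub_dvd_pow_sub_pow (X ^ (2 * m) : ℤ[X]) 1 (i + 1)
    rwa [one_pow] at this
  refine h1.trans ?_
  have h4 : ∏ i ∈ range r, (X ^ (2 * (m * (i + 1) - 1 + 1)) - 1 : ℤ[X]) =
      ∏ t ∈ (range r).image (fun i => m * (i + 1) - 1), (X ^ (2 * (t + 1)) - 1) := by
    rw [Finset.prod_image]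
    intro a _ b _ hab
    have h5 : 0 < m * (a + 1) := Nat.mul_pos hm (by omega)
    have h6 : 0 < m * (b + 1) := Nat.mul_pos hm (by omega)
    have h7 : m * (a + 1) = m * (b + 1) := by
      simp only at hab
      omega
    have := Nat.eq_of_mul_eq_mul_left hm h7
    omega
  rw [h4, DD]
  refine Finset.prod_dvd_prod_of_subset _ _ _ ?_
  intro t ht
  obtain ⟨i, hi, rfl⟩ := Finset.mem_image.1 ht
  have hi' := mem_range.1 hi
  rw [mem_range]
  have h5 : 0 < m * (i + 1) := Nat.mul_pos hm (by omega)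
  have h6 : m * (i + 1) ≤ r * m := by
    rw [mul_comm r m]
    exact Nat.mul_le_mul_left m hi'
  omega

lemma coprime_X {m : ℕ} (hm : 0 < m) : IsCoprime (Ph m) (X : ℤ[X]) := by
  have h1 := divX_mul_X_add (Ph m)
  have h2 : (Ph m).coeff 0 = 1 := cyclotomic_coeff_zero ℤ (by omega)
  rw [h2, map_one] at h1
  exact ⟨1, -divX (Ph m), by linear_combination -h1⟩

lemma dvd_of_X {m : ℕ} (hm : 0 < m) (r e : ℕ) (g : ℤ[X]) (h : Ph m ^ r ∣ X ^ e * g) :
    Ph m ^ r ∣ g := ((coprime_X hm).pow).dvd_of_dvd_mul_left h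

namespace HF

variable (F : HF)

/-- Vanishing of order at least `r` at the level `m`. -/
def Van (m r : ℕ) : Prop := ∃ M, r * m ≤ M ∧ Ph m ^ r ∣ F.f M

variable {F}

lemma van_all {m r : ℕ} (hm : 0 < m) (h : F.Van m r) (M : ℕ) (hM : r * m ≤ M) :
    Ph m ^ r ∣ F.f M := by
  obtain ⟨M₀, h0, h1⟩ := h
  rcases le_total M₀ M with h2 | h2
  · obtain ⟨e, g, h3⟩ := F.cong M₀ M h2
    apply dvd_of_X hm r (e + F.k M₀)
    rw [h3]
    exact dvd_add (h1.mul_left _) ((dvd_DD hm h0).mul_right _)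
  · obtain ⟨e, g, h3⟩ := F.cong M M₀ h2
    apply dvd_of_X hm r (e + F.k M₀)
    have h4 : X ^ (e + F.k M₀) * F.f M = X ^ (e + F.k M) * F.f M₀ - DD M * g := by
      rw [h3]; ring
    rw [h4]
    exact dvd_sub (h1.mul_left _) ((dvd_DD hm hM).mul_right _)

lemma van_zero (m : ℕ) : F.Van m 0 := ⟨0, by simp, by simp⟩

lemma van_mono {m r r' : ℕ} (h : F.Van m r) (hr : r' ≤ r) : F.Van m r' := by
  obtain ⟨M₀, h0, h1⟩ := h
  refine ⟨M₀, (Nat.mul_le_mul_right m hr).trans h0, (pow_dvd_pow _ hr).trans h1⟩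

/-- The exact order. -/
def Ex (F : HF) (m o : ℕ) : Prop := F.Van m o ∧ ¬ F.Van m (o + 1)

lemma exists_ex {m r : ℕ} (h : ¬ F.Van m r) : ∃ o, o < r ∧ F.Ex m o := by
  induction r with
  | zero => exact absurd (van_zero m) h
  | succ r ih =>
    by_cases h1 : F.Van m r
    · exact ⟨r, by omega, h1, h⟩
    · obtain ⟨o, h2, h3⟩ := ih h1
      exact ⟨o, by omega, h3⟩

lemma Ex.lead {m o : ℕ} (hm : 0 < m) (h : F.Ex m o) :
    ∃ G : ℤ[X], F.f ((o + 1) * m) = Ph m ^ o * G ∧ ¬ Ph m ∣ G := by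
  obtain ⟨G, hG⟩ := van_all hm h.1 ((o + 1) * m) (Nat.mul_le_mul_right m (by omega))
  refine ⟨G, hG, fun h1 => h.2 ⟨(o + 1) * m, le_rfl, ?_⟩⟩
  rw [hG, pow_succ]
  exact mul_dvd_mul_left _ h1

/-- The main inequality. -/
theorem main_le {m o : ℕ} (hm : 0 < m) {G : ℤ[X]}
    (hG : F.f ((o + 1) * m) = Ph m ^ o * G) (hnd : ¬ Ph m ∣ G)
    (E : Finset ℕ) (lev r : ℕ → ℕ) (hinj : Set.InjOn lev E)
    (hE : ∀ n ∈ E, 0 < lev n ∧ lev n ≠ m ∧ F.Van (lev n) (r n)) :
    ∏ n ∈ E, NN (2 * m) (Ph (lev n)) ^ r n ≤ NN (2 * m) G := by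
  have hm2 : 0 < 2 * m := by omega
  set M := max ((o + 1) * m) (E.sup fun n => r n * lev n) with hM
  obtain ⟨e, h, h1⟩ := F.cong ((o + 1) * m) M (le_max_left _ _)
  obtain ⟨d, hd⟩ := dvd_DD (m := m) (r := o + 1) (K := (o + 1) * m) hm le_rfl
  have h2 : X ^ (e + F.k ((o + 1) * m)) * F.f M =
      Ph m ^ o * (X ^ (e + F.k M) * G + Ph m * (d * h)) := by
    rw [h1, hG, hd]; ring
  obtain ⟨G', hG'⟩ := dvd_of_X hm o _ _ (Dvd.intro _ h2.symm)
  have hPh0 : Ph m ^ o ≠ 0 := pow_ne_zero _ (cyclotomic_ne_zero _ ℤ)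
  have h3 : X ^ (e + F.k ((o + 1) * m)) * G' = X ^ (e + F.k M) * G + Ph m * (d * h) := by
    apply mul_left_cancel₀ hPh0
    rw [← h2, hG']; ring
  have hval : ∀ μ ∈ primitiveRoots (2 * m) ℂ, ‖aeval μ G'‖ = ‖aeval μ G‖ := by
    intro μ hμ
    have hμ' := isPrimitiveRoot_of_mem_primitiveRoots hμ
    have h4 : aeval μ (Ph m) = 0 := (dvd_iff hm2 hμ' _).1 (dvd_refl _)
    have h5 := congrArg (fun q => ‖aeval μ q‖) h3
    simp only [map_mul, map_add, map_pow, aeval_X, h4, zero_mul, add_zero, norm_mul, norm_pow] at h5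
    rw [Complex.norm_eq_one_of_pow_eq_one hμ'.pow_eq_one (by omega), one_pow, one_pow, one_mul,
      one_mul] at h5
    exact h5
  have hNN : NN (2 * m) G' = NN (2 * m) G := Finset.prod_congr rfl hval
  have hnd' : ¬ Ph m ∣ G' := by
    intro h4
    have h5 : X ^ (e + F.k M) * G = X ^ (e + F.k ((o + 1) * m)) * G' - Ph m * (d * h) := by
      rw [h3]; ring
    have h6 : Ph m ^ 1 ∣ X ^ (e + F.k M) * G := by
      rw [pow_one, h5]
      exact dvd_sub (h4.mul_left _) (dvd_mul_right _ _)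
    have h7 := dvd_of_X hm 1 _ _ h6
    rw [pow_one] at h7
    exact hnd h7
  have hdvd : ∏ n ∈ E, Ph (lev n) ^ r n ∣ G' := by
    refine Finset.prod_dvd_of_isRelPrime ?_ ?_
    · intro a ha b hb hab
      refine cyc_relPrime (by have := (hE a ha).1; omega) ?_ _ _
      intro h4
      exact hab (hinj ha hb (by omega))
    · intro n hn
      obtain ⟨h5, h6, h7⟩ := hE n hn
      have h8 : Ph (lev n) ^ r n ∣ F.f M := by
        refine van_all h5 h7 M ?_
        refine le_trans ?_ (le_max_right _ _)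
        exact Finset.le_sup (f := fun n => r n * lev n) hn
      rw [hG'] at h8
      exact (cyc_relPrime (by omega) (by omega) _ _).dvd_of_dvd_mul_left h8
  obtain ⟨H, hH⟩ := hdvd
  have hndH : ¬ Ph m ∣ H := fun h5 => hnd' (by rw [hH]; exact h5.mul_left _)
  rw [← hNN, hH, NN_mul, NN_prod]
  have h9 := one_le_NN hm2 H hndH
  have h10 : 0 ≤ ∏ n ∈ E, NN (2 * m) (Ph (lev n) ^ r n) :=
    Finset.prod_nonneg fun _ _ => NN_nonneg _ _
  simp only [NN_pow] at h10 ⊢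
  nlinarith

lemma lt_of_pow_le {x B : ℝ} (hx : 2 ≤ x) {r : ℕ} (h : x ^ r ≤ B) : (r : ℝ) < B := by
  have h1 : ((r : ℕ) : ℝ) < (2 : ℝ) ^ r := by exact_mod_cast Nat.lt_two_pow_self
  exact h1.trans_le ((pow_le_pow_left₀ (by norm_num) hx r).trans h)

/-- Finite order spreads to the neighbours. -/
lemma finite_of {m n r : ℕ} (hm : 0 < m) (hn : 0 < n) (hmn : n ≠ m)
    (h2 : 2 ≤ NN (2 * m) (Ph n)) (h : ¬ F.Van m r) : ∃ r', ¬ F.Van n r' := by
  obtain ⟨o, -, ho⟩ := exists_ex h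
  obtain ⟨G, hG, hnd⟩ := ho.lead hm
  by_contra h3
  push Not at h3
  obtain ⟨r', hr'⟩ := exists_nat_gt (NN (2 * m) G)
  have h4 := main_le hm hG hnd {n} id (fun _ => r') (Function.injective_id.injOn) (by
    intro x hx
    rw [mem_singleton] at hx
    subst hx
    exact ⟨hn, hmn, h3 r'⟩)
  rw [Finset.prod_singleton, id] at h4
  have := lt_of_pow_le h2 h4
  linarith

lemma two_le_NN {l : ℕ} (hl : l.Prime) {m b : ℕ} (hm : 0 < m) (hb : 0 < b) :
    2 ≤ NN (2 * m) (Ph (m * l ^ b)) := by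
  have h1 := NN_cyc hl (n := 2 * m) (b := b) (by omega) hb
  rw [mul_assoc] at h1
  refine le_trans ?_ h1
  have h2 : (2 : ℝ) ≤ l := by exact_mod_cast hl.two_le
  have h3 : 0 < (2 * m).totient := Nat.totient_pos.2 (by omega)
  calc (2 : ℝ) ≤ l := h2
    _ = (l : ℝ) ^ 1 := (pow_one _).symm
    _ ≤ _ := pow_le_pow_right₀ (by linarith) h3

lemma ne_mul_pow {l : ℕ} (hl : l.Prime) {m b : ℕ} (hm : 0 < m) (hb : 0 < b) : m * l ^ b ≠ m := by
  intro h
  have h2 : 1 < l ^ b := Nat.one_lt_pow (by omega) hl.one_lt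
  have h3 : m * 1 < m * l ^ b := Nat.mul_lt_mul_of_pos_left h2 hm
  omega

lemma finite_up {l : ℕ} (hl : l.Prime) {m b r : ℕ} (hm : 0 < m) (hb : 0 < b)
    (h : ¬ F.Van m r) : ∃ r', ¬ F.Van (m * l ^ b) r' :=
  finite_of hm (Nat.mul_pos hm (pow_pos hl.pos b)) (ne_mul_pow hl hm hb) (two_le_NN hl hm hb) h

lemma finite_down {l : ℕ} (hl : l.Prime) {m b r : ℕ} (hm : 0 < m) (hb : 0 < b)
    (h : ¬ F.Van (m * l ^ b) r) : ∃ r', ¬ F.Van m r' := by
  have h0 : 0 < m * l ^ b := Nat.mul_pos hm (pow_pos hl.pos b)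
  refine finite_of h0 hm (ne_mul_pow hl hm hb).symm ?_ h
  have h1 : NN (2 * (m * l ^ b)) (Ph m) = NN (2 * m) (Ph (m * l ^ b)) :=
    NN_symm (by omega) (by omega)
  rw [h1]
  exact two_le_NN hl hm hb

/-- If the order at one level is finite then it is finite at the level `1`. -/
lemma finite_one : ∀ (m : ℕ), 0 < m → ∀ r, ¬ F.Van m r → ∃ r', ¬ F.Van 1 r' := by
  intro m
  induction m using Nat.strong_induction_on with
  | _ m ih =>
    intro hm r h
    rcases Nat.eq_or_lt_of_le (Nat.succ_le_of_lt hm) with h1 | h1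
    · have : m = 1 := by omega
      subst this
      exact ⟨r, h⟩
    · have hp := Nat.minFac_prime (n := m) (by omega)
      obtain ⟨k, hk⟩ := Nat.minFac_dvd m
      have hk0 : 0 < k := by
        rcases Nat.eq_zero_or_pos k with h0 | h0
        · rw [h0, mul_zero] at hk; omega
        · exact h0
      have hkm : k < m := by
        have := hp.two_le
        nlinarith
      have e : m = k * m.minFac ^ 1 := by rw [pow_one, mul_comm]; exact hk
      rw [e] at h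
      obtain ⟨r', h2⟩ := finite_down hp hk0 one_pos h
      exact ih k hkm hk0 r' h2

end HF

end Pool.Agent.U476.ZO
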