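import Pool.Agent.U476.NB.Norm

/-! Products of the values of an integral polynomial at the primitive roots of unity. -/

set_option autoImplicit false

namespace Pool.Agent.U476.ZO

open Finset NumberField Polynomial
open Pool.Agent.U476.NB (cyc_inst)

/-- The product of the moduli of the values at the primitive `n`-th roots of unity. -/
noncomputable def NN (n : ℕ) (P : ℤ[X]) : ℝ := ∏ μ ∈ primitiveRoots n ℂ, ‖aeval μ P‖

lemma NN_mul (n : ℕ) (P Q : ℤ[X]) : NN n (P * Q) = NN n P * NN n Q := by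
  simp only [NN, map_mul, norm_mul, Finset.prod_mul_distrib]

lemma NN_pow (n : ℕ) (P : ℤ[X]) (r : ℕ) : NN n (P ^ r) = NN n P ^ r := by
  simp only [NN, map_pow, norm_pow, Finset.prod_pow]

lemma NN_nonneg (n : ℕ) (P : ℤ[X]) : 0 ≤ NN n P := Finset.prod_nonneg fun _ _ => norm_nonneg _

lemma NN_prod {ι : Type} (n : ℕ) (s : Finset ι) (P : ι → ℤ[X]) :
    NN n (∏ i ∈ s, P i) = ∏ i ∈ s, NN n (P i) := by
  simp only [NN, map_prod, norm_prod]
  exact Finset.prod_comm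

theorem norm_pol_aux (n : ℕ) (hn : 0 < n) (P : ℤ[X]) (K : Type) [Field K]
    [NumberField K] [NeZero n] [IsCyclotomicExtension {n} ℚ K] :
    ∃ M : ℤ, (M : ℂ) = ∏ μ ∈ primitiveRoots n ℂ, aeval μ P := by
  have hζ : IsPrimitiveRoot (IsCyclotomicExtension.zeta n ℚ K) n :=
    IsCyclotomicExtension.zeta_spec n ℚ K
  set ζ := IsCyclotomicExtension.zeta n ℚ K with hζd
  let X : 𝓞 K := aeval hζ.toInteger P
  have hirr : Irreducible (Polynomial.cyclotomic n ℚ) :=
    Polynomial.cyclotomic.irreducible_rat hn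
  have hσ : ∀ σ : K →ₐ[ℚ] ℂ, σ (X : K) = aeval (σ ζ) P := by
    intro σ
    have h1 : (X : K) = aeval ζ P := by
      change (algebraMap (𝓞 K) K) (aeval hζ.toInteger P) = aeval ζ P
      rw [← aeval_algebraMap_apply]
      rfl
    rw [h1]
    have h2 := aeval_algHom_apply (σ.restrictScalars ℤ) ζ P
    exact h2.symm
  have hprod : (algebraMap ℚ ℂ) (Algebra.norm ℚ (X : K)) =
      ∏ μ ∈ primitiveRoots n ℂ, aeval μ P := by
    rw [Algebra.norm_eq_prod_embeddings ℚ ℂ (X : K)]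
    rw [← Finset.prod_coe_sort (primitiveRoots n ℂ)]
    refine Fintype.prod_equiv (hζ.embeddingsEquivPrimitiveRoots ℂ hirr) _ _ fun σ => ?_
    rw [hσ σ, IsPrimitiveRoot.embeddingsEquivPrimitiveRoots_apply_coe]
  refine ⟨Algebra.norm ℤ X, ?_⟩
  rw [← hprod, ← Algebra.coe_norm_int X]
  simp

lemma cyc_inst' (r : ℕ) (hr : 0 < r) : @IsCyclotomicExtension {r} ℚ
    (CyclotomicField r ℚ) _ _ DivisionRing.toRatAlgebra := by
  have : NeZero r := ⟨by omega⟩
  have h2 : @IsCyclotomicExtension {r} ℚ (CyclotomicField r ℚ) _ _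
      (CyclotomicField.algebra r ℚ) := inferInstance
  convert h2
  exact Subsingleton.elim _ _

theorem norm_pol (n : ℕ) (hn : 0 < n) (P : ℤ[X]) :
    ∃ M : ℤ, (M : ℂ) = ∏ μ ∈ primitiveRoots n ℂ, aeval μ P := by
  have : NeZero n := ⟨by omega⟩
  exact @norm_pol_aux n hn P (CyclotomicField n ℚ) _ _ _ (cyc_inst' n hn)

/-- Divisibility by the cyclotomic polynomial. -/
lemma dvd_iff {n : ℕ} (hn : 0 < n) {μ : ℂ} (hμ : IsPrimitiveRoot μ n) (P : ℤ[X]) :
    cyclotomic n ℤ ∣ P ↔ aeval μ P = 0 := by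
  rw [cyclotomic_eq_minpoly hμ hn]
  exact (minpoly.isIntegrallyClosed_dvd_iff (hμ.isIntegral hn) P).symm

lemma exists_prim {n : ℕ} (hn : 0 < n) : ∃ μ : ℂ, IsPrimitiveRoot μ n :=
  ⟨_, Complex.isPrimitiveRoot_exp n (by omega)⟩

lemma one_le_NN {n : ℕ} (hn : 0 < n) (P : ℤ[X]) (h : ¬ cyclotomic n ℤ ∣ P) : 1 ≤ NN n P := by
  obtain ⟨M, hM⟩ := norm_pol n hn P
  have h1 : M ≠ 0 := by
    intro h0
    rw [h0, Int.cast_zero] at hM
    obtain ⟨μ, hμ, h2⟩ := Finset.prod_eq_zero_iff.1 hM.symm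
    exact h ((dvd_iff hn (isPrimitiveRoot_of_mem_primitiveRoots hμ) P).2 h2)
  rw [NN, ← norm_prod, ← hM]
  have h3 : (1 : ℝ) ≤ |(M : ℝ)| := by
    have := Int.one_le_abs h1
    exact_mod_cast this
  simpa using h3

lemma cyc_not_dvd {a b : ℕ} (ha : 0 < a) (hab : a ≠ b) :
    ¬ cyclotomic a ℤ ∣ cyclotomic b ℤ := by
  obtain ⟨μ, hμ⟩ := exists_prim ha
  rw [dvd_iff ha hμ]
  intro h
  have h1 : IsPrimitiveRoot μ b := by
    rw [← isRoot_cyclotomic_iff_charZero (R := ℂ)]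
    · rw [IsRoot.def, ← h, aeval_def, ← eval_map, map_cyclotomic]
    · rcases Nat.eq_zero_or_pos b with h0 | h0
      · subst h0
        simp at h
      · exact h0
  exact hab (hμ.unique h1)

lemma cyc_relPrime {a b : ℕ} (ha : 0 < a) (hab : a ≠ b) (i j : ℕ) :
    IsRelPrime (cyclotomic a ℤ ^ i) (cyclotomic b ℤ ^ j) := by
  have h1 : IsRelPrime (cyclotomic a ℤ) (cyclotomic b ℤ) :=
    (cyclotomic.irreducible ha).isRelPrime_iff_not_dvd.2 (cyc_not_dvd ha hab)
  exact h1.pow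

/-- Symmetry. -/
lemma NN_symm {a b : ℕ} (ha : 0 < a) (hb : 0 < b) :
    NN a (cyclotomic b ℤ) = NN b (cyclotomic a ℤ) := by
  have h : ∀ {c : ℕ} (hc : 0 < c) (μ : ℂ), aeval μ (cyclotomic c ℤ) =
      ∏ ν ∈ primitiveRoots c ℂ, (μ - ν) := by
    intro c hc μ
    have h1 := cyclotomic_eq_prod_X_sub_primitiveRoots (Complex.isPrimitiveRoot_exp c (by omega))
    rw [aeval_def, ← eval_map, map_cyclotomic, h1, eval_prod]
    simp
  rw [NN, NN]
  simp only [h ha, h hb, norm_prod]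
  rw [Finset.prod_comm]
  refine Finset.prod_congr rfl fun μ _ => Finset.prod_congr rfl fun ν _ => ?_
  rw [norm_sub_rev]

lemma cyc_pow_modp {l : ℕ} (hl : l.Prime) (n : ℕ) : ∀ b : ℕ, 0 < b → ∃ e : ℕ, 0 < e ∧
    cyclotomic (n * l ^ b) (ZMod l) = cyclotomic n (ZMod l) ^ e := by
  have : Fact l.Prime := ⟨hl⟩
  intro b
  induction b with
  | zero => intro h; omega
  | succ b ih =>
    intro _
    rcases Nat.eq_zero_or_pos b with h0 | h0
    · subst h0
      rw [zero_add, pow_one]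
      by_cases h : l ∣ n
      · exact ⟨l, hl.pos, cyclotomic_mul_prime_dvd_eq_pow (ZMod l) h⟩
      · exact ⟨l - 1, by have := hl.two_le; omega,
          cyclotomic_mul_prime_eq_pow_of_not_dvd (ZMod l) h⟩
    · obtain ⟨e, he, h1⟩ := ih h0
      refine ⟨e * l, Nat.mul_pos he hl.pos, ?_⟩
      rw [pow_succ, ← mul_assoc, cyclotomic_mul_prime_dvd_eq_pow (ZMod l), h1, pow_mul]
      exact Dvd.dvd.mul_left (dvd_pow_self l (by omega)) n

lemma cyc_modp {l : ℕ} (hl : l.Prime) (n b : ℕ) (hb : 0 < b) : ∃ (e : ℕ) (c : ℤ[X]), 0 < e ∧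
    cyclotomic (n * l ^ b) ℤ = cyclotomic n ℤ ^ e + C (l : ℤ) * c := by
  have : Fact l.Prime := ⟨hl⟩
  obtain ⟨e, he, h1⟩ := cyc_pow_modp hl n b hb
  have h2 : C (l : ℤ) ∣ cyclotomic (n * l ^ b) ℤ - cyclotomic n ℤ ^ e := by
    rw [C_dvd_iff_dvd_coeff]
    intro i
    have h3 : (cyclotomic (n * l ^ b) ℤ - cyclotomic n ℤ ^ e).map (Int.castRingHom (ZMod l)) = 0 := by
      rw [Polynomial.map_sub, Polynomial.map_pow, map_cyclotomic, map_cyclotomic, h1, sub_self]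
    have h4 := congrArg (fun q => q.coeff i) h3
    simp only [coeff_map, coeff_zero] at h4
    exact (ZMod.intCast_zmod_eq_zero_iff_dvd _ _).1 h4
  obtain ⟨c, hc⟩ := h2
  exact ⟨e, c, he, by rw [← hc]; ring⟩

/-- The resultant of two cyclotomic polynomials whose orders differ by a prime power. -/
lemma NN_cyc {l : ℕ} (hl : l.Prime) {n b : ℕ} (hn : 0 < n) (hb : 0 < b) :
    (l : ℝ) ^ n.totient ≤ NN n (cyclotomic (n * l ^ b) ℤ) := by
  obtain ⟨e, c, he, h1⟩ := cyc_modp hl n b hb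
  have hne : n ≠ n * l ^ b := by
    intro h
    have h2 : 1 < l ^ b := Nat.one_lt_pow (by omega) hl.one_lt
    have h3 : n * 1 < n * l ^ b := Nat.mul_lt_mul_of_pos_left h2 hn
    omega
  have hev : ∀ μ ∈ primitiveRoots n ℂ, aeval μ (cyclotomic (n * l ^ b) ℤ) = l * aeval μ c := by
    intro μ hμ
    have h2 : aeval μ (cyclotomic n ℤ) = 0 :=
      (dvd_iff hn (isPrimitiveRoot_of_mem_primitiveRoots hμ) _).1 (dvd_refl _)
    rw [h1, map_add, map_pow, h2, zero_pow he.ne', zero_add, map_mul, aeval_C]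
    simp
  have hc : ¬ cyclotomic n ℤ ∣ c := by
    intro h
    apply cyc_not_dvd hn hne
    rw [h1]
    exact dvd_add (dvd_pow_self _ he.ne') (h.mul_left _)
  have h3 : NN n (cyclotomic (n * l ^ b) ℤ) = (l : ℝ) ^ n.totient * NN n c := by
    rw [NN, NN, Finset.prod_congr rfl fun μ hμ => congrArg norm (hev μ hμ)]
    simp only [norm_mul, Finset.prod_mul_distrib, Finset.prod_const]
    rw [Complex.card_primitiveRoots]
    simp
  rw [h3]
  have h4 := one_le_NN hn c hc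
  have h5 : (0 : ℝ) ≤ (l : ℝ) ^ n.totient := by positivity
  nlinarith

end Pool.Agent.U476.ZO
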