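import Pool.Agent.U476.ZO.Grow

/-! Orders of vanishing along products of prime powers, exceptional prime powers. -/

set_option autoImplicit false

namespace Pool.Agent.U476.ZO

open Finset Polynomial HF

lemma prod_le_card (n : ℕ) : ∀ s : Finset ℕ, s.card = n → (∀ p ∈ s, 2 ≤ p) →
    ∏ p ∈ s, p ≤ (n + 1) * ∏ p ∈ s, (p - 1) := by
  induction n with
  | zero =>
    intro s h1 _
    rw [Finset.card_eq_zero] at h1
    subst h1
    simp
  | succ n ih =>
    intro s h1 h2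
    have hne : s.Nonempty := by
      rw [← Finset.card_pos]; omega
    set q := s.max' hne with hq
    have hqs : q ∈ s := Finset.max'_mem s hne
    have h3 : n + 2 ≤ q := by
      have h4 : s ⊆ Finset.Icc 2 q := by
        intro p hp
        rw [Finset.mem_Icc]
        exact ⟨h2 p hp, Finset.le_max' s p hp⟩
      have h5 := Finset.card_le_card h4
      rw [h1, Nat.card_Icc] at h5
      omega
    have h4 := ih (s.erase q) (by rw [Finset.card_erase_of_mem hqs, h1]; rfl)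
      (fun p hp => h2 p (Finset.mem_of_mem_erase hp))
    rw [← Finset.mul_prod_erase s _ hqs, ← Finset.mul_prod_erase s (fun p => p - 1) hqs]
    obtain ⟨r, hr⟩ : ∃ r, q = r + 1 := ⟨q - 1, by omega⟩
    rw [hr, Nat.add_sub_cancel]
    rw [hr] at h4 h3
    have h5 : (r + 1) * (n + 1) ≤ (n + 1 + 1) * r := by nlinarith
    calc (r + 1) * ∏ p ∈ s.erase (r + 1), p
        ≤ (r + 1) * ((n + 1) * ∏ p ∈ s.erase (r + 1), (p - 1)) := Nat.mul_le_mul_left _ h4
      _ = ((r + 1) * (n + 1)) * ∏ p ∈ s.erase (r + 1), (p - 1) := by ring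
      _ ≤ ((n + 1 + 1) * r) * ∏ p ∈ s.erase (r + 1), (p - 1) := Nat.mul_le_mul_right _ h5
      _ = _ := by ring

lemma le_totient (m : ℕ) : m ≤ (m.primeFactors.card + 1) * m.totient := by
  have h1 := Nat.totient_mul_prod_primeFactors m
  have h2 := prod_le_card _ m.primeFactors rfl
    fun p hp => (Nat.prime_of_mem_primeFactors hp).two_le
  have h3 : 0 < ∏ p ∈ m.primeFactors, (p - 1) := by
    refine Finset.prod_pos fun p hp => ?_
    have := (Nat.prime_of_mem_primeFactors hp).two_le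
    omega
  refine Nat.le_of_mul_le_mul_right (c := ∏ p ∈ m.primeFactors, (p - 1)) ?_ h3
  rw [← h1]
  calc m.totient * ∏ p ∈ m.primeFactors, p ≤
      m.totient * ((m.primeFactors.card + 1) * ∏ p ∈ m.primeFactors, (p - 1)) :=
        Nat.mul_le_mul_left _ h2
    _ = _ := by ring

variable {F : HF} {C : ℝ}

/-- The weighted sum over the prime powers at which the function vanishes. -/
theorem exc_sum (hF : Gr F C) {m o : ℕ} (hm : 0 < m) (ho : F.Ex m o) (E : Finset ℕ) (r : ℕ → ℕ)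
    (hE : ∀ Q ∈ E, IsPrimePow Q ∧ F.Van (m * Q) (r Q)) :
    ∑ Q ∈ E, (r Q : ℝ) * Real.log Q.minFac ≤ (9 * C + 4) *
      (((m.primeFactors.card : ℝ) + 1) * ((o : ℝ) + 1) *
        (1 + Real.log (((o + 1) * m : ℕ) : ℝ)) ^ 2) := by
  obtain ⟨G, hG, hnd⟩ := ho.lead hm
  have hpp : ∀ Q ∈ E, ∃ l b : ℕ, l.Prime ∧ 0 < b ∧ Q.minFac = l ∧ Q = l ^ b := by
    intro Q hQ
    obtain ⟨l, b, h1, h2, h3⟩ := (isPrimePow_nat_iff Q).1 (hE Q hQ).1
    refine ⟨l, b, h1, h2, ?_, h3.symm⟩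
    rw [← h3, h1.pow_minFac h2.ne']
  have hinj : Set.InjOn (fun Q => m * Q) E := by
    intro Q hQ Q' hQ' h
    exact Nat.eq_of_mul_eq_mul_left hm h
  have h1 := main_le hm hG hnd E (fun Q => m * Q) r hinj (by
    intro Q hQ
    obtain ⟨l, b, h1, h2, h3, h4⟩ := hpp Q hQ
    have h5 := (hE Q hQ).2
    rw [h4] at h5
    show 0 < m * Q ∧ m * Q ≠ m ∧ F.Van (m * Q) (r Q)
    rw [h4]
    exact ⟨Nat.mul_pos hm (pow_pos h1.pos _), ne_mul_pow h1 hm h2, h5⟩)
  have hφ : (0 : ℝ) < (2 * m).totient := by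
    exact_mod_cast Nat.totient_pos.2 (by omega)
  have h2 : ∀ Q ∈ E, ((2 * m).totient : ℝ) * Real.log Q.minFac ≤ Real.log (NN (2 * m) (Ph (m * Q))) ∧
      0 < NN (2 * m) (Ph (m * Q)) := by
    intro Q hQ
    obtain ⟨l, b, h3, h4, h7, h8⟩ := hpp Q hQ
    have h5 := NN_cyc h3 (n := 2 * m) (b := b) (by omega) h4
    rw [mul_assoc, ← h8] at h5
    have hl0 : (0 : ℝ) < l := by exact_mod_cast h3.pos
    have h6 : (0 : ℝ) < (l : ℝ) ^ (2 * m).totient := by positivity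
    refine ⟨?_, lt_of_lt_of_le h6 h5⟩
    rw [h7, ← Real.log_pow]
    exact Real.log_le_log h6 h5
  have h3 : Real.log (∏ Q ∈ E, NN (2 * m) (Ph (m * Q)) ^ r Q) =
      ∑ Q ∈ E, (r Q : ℝ) * Real.log (NN (2 * m) (Ph (m * Q))) := by
    rw [Real.log_prod (fun Q hQ => (pow_pos (h2 Q hQ).2 _).ne')]
    exact Finset.sum_congr rfl fun Q _ => Real.log_pow _ _
  have h4 : 0 < ∏ Q ∈ E, NN (2 * m) (Ph (m * Q)) ^ r Q :=
    Finset.prod_pos fun Q hQ => pow_pos (h2 Q hQ).2 _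
  have h5 := Real.log_le_log h4 h1
  rw [h3] at h5
  have h6 := log_NN_le hF hm hG hnd
  have h7 : ((2 * m).totient : ℝ) * ∑ Q ∈ E, (r Q : ℝ) * Real.log Q.minFac ≤
      ∑ Q ∈ E, (r Q : ℝ) * Real.log (NN (2 * m) (Ph (m * Q))) := by
    rw [Finset.mul_sum]
    refine Finset.sum_le_sum fun Q hQ => ?_
    have := mul_le_mul_of_nonneg_left (h2 Q hQ).1 (Nat.cast_nonneg (α := ℝ) (r Q))
    linarith
  have h8 : (m : ℝ) ≤ (2 * m).totient * ((m.primeFactors.card : ℝ) + 1) := by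
    have a1 := le_totient m
    have a2 : m.totient ≤ (2 * m).totient := by
      have := Nat.totient_dvd_of_dvd (Dvd.intro_left 2 rfl : m ∣ 2 * m)
      exact Nat.le_of_dvd (Nat.totient_pos.2 (by omega)) this
    have a3 : m ≤ (2 * m).totient * (m.primeFactors.card + 1) :=
      a1.trans (by rw [mul_comm]; exact Nat.mul_le_mul_right _ a2)
    exact_mod_cast a3
  have hC : 0 ≤ 9 * C + 4 := by have := hF.1; linarith
  have h9 : 0 ≤ (9 * C + 4) * (((o : ℝ) + 1) * (1 + Real.log (((o + 1) * m : ℕ) : ℝ)) ^ 2) := by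
    positivity
  have h10 := mul_le_mul_of_nonneg_right h8 h9
  refine le_of_mul_le_mul_left ?_ hφ
  nlinarith

/-- The order is unique. -/
lemma ex_unique {m o o' : ℕ} (h : F.Ex m o) (h' : F.Ex m o') : o = o' := by
  by_contra hne
  rcases lt_or_gt_of_ne hne with h1 | h1
  · exact h.2 (van_mono h'.1 (by omega))
  · exact h'.2 (van_mono h.1 (by omega))

lemma half_le_log {Q : ℕ} (hQ : IsPrimePow Q) : (1 : ℝ) / 2 ≤ Real.log Q.minFac := by
  have h : 2 ≤ Q.minFac := (Nat.minFac_prime hQ.ne_one).two_le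
  have a1 : (2 : ℝ) ≤ Q.minFac := by exact_mod_cast h
  have a2 := Real.log_two_gt_d9
  have a3 := Real.log_le_log (by norm_num) a1
  linarith

/-- The order at the next level. -/
theorem ex_step (hF : Gr F C) {m o Q o' : ℕ} (hm : 0 < m) (ho : F.Ex m o) (hQ : IsPrimePow Q)
    (ho' : F.Ex (m * Q) o') :
    (o' : ℝ) + 1 ≤ (18 * C + 9) * (((m.primeFactors.card : ℝ) + 1) * ((o : ℝ) + 1) *
        (1 + Real.log (((o + 1) * m : ℕ) : ℝ)) ^ 2) := by
  have h1 := exc_sum hF hm ho {Q} (fun _ => o') (by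
    intro x hx
    rw [mem_singleton] at hx
    subst hx
    exact ⟨hQ, ho'.1⟩)
  rw [Finset.sum_singleton] at h1
  set T := ((m.primeFactors.card : ℝ) + 1) * ((o : ℝ) + 1) *
        (1 + Real.log (((o + 1) * m : ℕ) : ℝ)) ^ 2 with hT
  have hT1 : 1 ≤ T := by
    have a1 : (1 : ℝ) ≤ (m.primeFactors.card : ℝ) + 1 := by
      have : (0 : ℝ) ≤ m.primeFactors.card := Nat.cast_nonneg _
      linarith
    have a2 : (1 : ℝ) ≤ (o : ℝ) + 1 := by
      have : (0 : ℝ) ≤ o := Nat.cast_nonneg o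
      linarith
    have a3 : (1 : ℝ) ≤ (1 + Real.log (((o + 1) * m : ℕ) : ℝ)) ^ 2 := by
      have := Real.log_natCast_nonneg ((o + 1) * m)
      exact one_le_pow₀ (by linarith)
    exact one_le_mul_of_one_le_of_one_le (one_le_mul_of_one_le_of_one_le a1 a2) a3
  have hl2 := half_le_log hQ
  have ho0 : (0 : ℝ) ≤ o' := Nat.cast_nonneg o'
  have h2 : (o' : ℝ) * (1 / 2) ≤ o' * Real.log Q.minFac := mul_le_mul_of_nonneg_left hl2 ho0
  have hC := hF.1
  nlinarith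

/-- Orders at all levels with few prime factors. -/
theorem ex_bound (hF : Gr F C) {o₁ : ℕ} (h₁ : F.Ex 1 o₁) {K : ℕ} {X A : ℝ} (hX : 1 ≤ X)
    (hA : A = (18 * C + 9) * (((K : ℝ) + 1) * (1 + 2 * Real.log X) ^ 2))
    (hAX : ((o₁ : ℝ) + 1) * A ^ K ≤ X) :
    ∀ (w m : ℕ), m.primeFactors.card = w → 0 < m → (m : ℝ) ≤ X → w ≤ K →
      ∃ o, F.Ex m o ∧ (o : ℝ) + 1 ≤ ((o₁ : ℝ) + 1) * A ^ w := by
  have hC := hF.1
  have hLX : 0 ≤ Real.log X := Real.log_nonneg hX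
  have hA1 : 1 ≤ A := by
    rw [hA]
    have a1 : (1 : ℝ) ≤ (K : ℝ) + 1 := by
      have : (0 : ℝ) ≤ K := Nat.cast_nonneg _
      linarith
    have a2 : (1 : ℝ) ≤ (1 + 2 * Real.log X) ^ 2 := one_le_pow₀ (by linarith)
    have a3 := one_le_mul_of_one_le_of_one_le a1 a2
    exact one_le_mul_of_one_le_of_one_le (by linarith) a3
  intro w
  induction w with
  | zero =>
    intro m h1 h2 _ _
    have h3 : m = 1 := by
      rw [Finset.card_eq_zero, Nat.primeFactors_eq_empty] at h1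
      omega
    subst h3
    exact ⟨o₁, h₁, by simp⟩
  | succ w ih =>
    intro m h1 h2 hmX hwK
    have hm1 : m ≠ 1 := by
      rintro rfl
      simp at h1
    set l := m.minFac with hl
    have hlp : l.Prime := Nat.minFac_prime hm1
    have hlm : l ∣ m := Nat.minFac_dvd m
    set b := m.factorization l with hb
    set m' := m / l ^ b with hm'
    have e : m = m' * l ^ b := by
      rw [hm', hb, Nat.div_mul_cancel (Nat.ordProj_dvd m l)]
    have hb0 : 0 < b := hlp.factorization_pos_of_dvd (by omega) hlm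
    have hm'0 : 0 < m' := Nat.ordCompl_pos l (by omega)
    have hcard : m'.primeFactors.card = w := by
      have h3 : m'.primeFactors = m.primeFactors.erase l := by
        rw [hm', hb, ← Nat.support_factorization, ← Nat.support_factorization,
          Nat.factorization_ordCompl, Finsupp.support_erase]
      rw [h3, Finset.card_erase_of_mem (Nat.mem_primeFactors.2 ⟨hlp, hlm, by omega⟩), h1]
      rfl
    have hm'm : m' ≤ m := Nat.div_le_self _ _
    have hm'X : (m' : ℝ) ≤ X := le_trans (by exact_mod_cast hm'm) hmX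
    obtain ⟨o', ho', hb'⟩ := ih m' hcard hm'0 hm'X (by omega)
    obtain ⟨r, hr⟩ := finite_up hlp hm'0 hb0 ho'.2
    obtain ⟨o, -, ho⟩ := exists_ex hr
    have h4 := ex_step hF hm'0 ho' ((isPrimePow_nat_iff _).2 ⟨l, b, hlp, hb0, rfl⟩) ho
    rw [← e] at ho
    refine ⟨o, ho, ?_⟩
    rw [hcard] at h4
    have h5 : (o' : ℝ) + 1 ≤ X := by
      refine hb'.trans (le_trans ?_ hAX)
      refine mul_le_mul_of_nonneg_left (pow_le_pow_right₀ hA1 (by omega)) (by positivity)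
    have h6 : 1 + Real.log (((o' + 1) * m' : ℕ) : ℝ) ≤ 1 + 2 * Real.log X := by
      have a1 : (0 : ℝ) < (o' : ℝ) + 1 := by positivity
      have a2 : (0 : ℝ) < (m' : ℝ) := by exact_mod_cast hm'0
      push_cast
      rw [Real.log_mul a1.ne' a2.ne']
      have a3 := Real.log_le_log a1 h5
      have a4 := Real.log_le_log a2 hm'X
      linarith
    have h7 : (1 + Real.log (((o' + 1) * m' : ℕ) : ℝ)) ^ 2 ≤ (1 + 2 * Real.log X) ^ 2 := by
      have := Real.log_natCast_nonneg ((o' + 1) * m')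
      exact pow_le_pow_left₀ (by linarith) h6 2
    have h8 : (w : ℝ) + 1 ≤ (K : ℝ) + 1 := by
      have : (w : ℝ) ≤ K := by exact_mod_cast (by omega : w ≤ K)
      linarith
    have h9 : ((w : ℝ) + 1) * ((o' : ℝ) + 1) * (1 + Real.log (((o' + 1) * m' : ℕ) : ℝ)) ^ 2 ≤
        ((K : ℝ) + 1) * ((o' : ℝ) + 1) * (1 + 2 * Real.log X) ^ 2 := by
      gcongr
    have h10 : (18 * C + 9) * (((w : ℝ) + 1) * ((o' : ℝ) + 1) *
        (1 + Real.log (((o' + 1) * m' : ℕ) : ℝ)) ^ 2) ≤ A * ((o' : ℝ) + 1) := by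
      rw [hA]
      have := mul_le_mul_of_nonneg_left h9 (show 0 ≤ 18 * C + 9 by linarith)
      linarith
    have h11 : A * ((o' : ℝ) + 1) ≤ A * (((o₁ : ℝ) + 1) * A ^ w) :=
      mul_le_mul_of_nonneg_left hb' (by linarith)
    calc (o : ℝ) + 1 ≤ A * (((o₁ : ℝ) + 1) * A ^ w) := h4.trans (h10.trans h11)
      _ = ((o₁ : ℝ) + 1) * A ^ (w + 1) := by ring

/-- The number of exceptional prime powers. -/
theorem exc_card (hF : Gr F C) {o₁ : ℕ} (h₁ : F.Ex 1 o₁) {K : ℕ} {X A : ℝ} (hX : 1 ≤ X)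
    (hA : A = (18 * C + 9) * (((K : ℝ) + 1) * (1 + 2 * Real.log X) ^ 2))
    (hAX : ((o₁ : ℝ) + 1) * A ^ K ≤ X) {m : ℕ} (hm : 0 < m) (hmX : (m : ℝ) ≤ X)
    (hmK : m.primeFactors.card ≤ K) (E : Finset ℕ)
    (hE : ∀ Q ∈ E, IsPrimePow Q ∧ F.Van (m * Q) 1) :
    (E.card : ℝ) ≤ ((o₁ : ℝ) + 1) * A ^ (K + 1) := by
  obtain ⟨o, ho, hb⟩ := ex_bound hF h₁ hX hA hAX _ m rfl hm hmX hmK
  have hC := hF.1
  have hLX : 0 ≤ Real.log X := Real.log_nonneg hX
  have hA1 : 1 ≤ A := by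
    rw [hA]
    have a1 : (1 : ℝ) ≤ (K : ℝ) + 1 := by
      have : (0 : ℝ) ≤ K := Nat.cast_nonneg _
      linarith
    have a2 : (1 : ℝ) ≤ (1 + 2 * Real.log X) ^ 2 := one_le_pow₀ (by linarith)
    have a3 := one_le_mul_of_one_le_of_one_le a1 a2
    exact one_le_mul_of_one_le_of_one_le (by linarith) a3
  have h1 := exc_sum hF hm ho E (fun _ => 1) hE
  simp only [Nat.cast_one, one_mul] at h1
  have h2 : (E.card : ℝ) * (1 / 2) ≤ ∑ Q ∈ E, Real.log Q.minFac := by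
    have h3 : (E.card : ℝ) * (1 / 2) = ∑ Q ∈ E, (1 / 2 : ℝ) := by simp
    rw [h3]
    refine Finset.sum_le_sum fun Q hQ => ?_
    exact half_le_log (hE Q hQ).1
  have hbK : (o : ℝ) + 1 ≤ ((o₁ : ℝ) + 1) * A ^ K := by
    refine hb.trans ?_
    refine mul_le_mul_of_nonneg_left (pow_le_pow_right₀ hA1 hmK) (by positivity)
  have h5 : (o : ℝ) + 1 ≤ X := hbK.trans hAX
  have h6 : 1 + Real.log (((o + 1) * m : ℕ) : ℝ) ≤ 1 + 2 * Real.log X := by
    have a1 : (0 : ℝ) < (o : ℝ) + 1 := by positivity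
    have a2 : (0 : ℝ) < (m : ℝ) := by exact_mod_cast hm
    push_cast
    rw [Real.log_mul a1.ne' a2.ne']
    have a3 := Real.log_le_log a1 h5
    have a4 := Real.log_le_log a2 hmX
    linarith
  have h7 : (1 + Real.log (((o + 1) * m : ℕ) : ℝ)) ^ 2 ≤ (1 + 2 * Real.log X) ^ 2 := by
    have := Real.log_natCast_nonneg ((o + 1) * m)
    exact pow_le_pow_left₀ (by linarith) h6 2
  have h8 : (m.primeFactors.card : ℝ) + 1 ≤ (K : ℝ) + 1 := by
    have : (m.primeFactors.card : ℝ) ≤ K := by exact_mod_cast hmK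
    linarith
  have h9 : ((m.primeFactors.card : ℝ) + 1) * ((o : ℝ) + 1) *
      (1 + Real.log (((o + 1) * m : ℕ) : ℝ)) ^ 2 ≤
      ((K : ℝ) + 1) * (((o₁ : ℝ) + 1) * A ^ K) * (1 + 2 * Real.log X) ^ 2 := by
    gcongr
  have h10 : (18 * C + 8) * (((m.primeFactors.card : ℝ) + 1) * ((o : ℝ) + 1) *
        (1 + Real.log (((o + 1) * m : ℕ) : ℝ)) ^ 2) ≤
      (18 * C + 9) * (((K : ℝ) + 1) * (((o₁ : ℝ) + 1) * A ^ K) * (1 + 2 * Real.log X) ^ 2) :=
    mul_le_mul (by linarith) h9 (by positivity) (by linarith)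
  calc (E.card : ℝ) ≤ (18 * C + 8) * (((m.primeFactors.card : ℝ) + 1) * ((o : ℝ) + 1) *
        (1 + Real.log (((o + 1) * m : ℕ) : ℝ)) ^ 2) := by linarith
    _ ≤ (18 * C + 9) * (((K : ℝ) + 1) * (((o₁ : ℝ) + 1) * A ^ K) * (1 + 2 * Real.log X) ^ 2) := h10
    _ = ((o₁ : ℝ) + 1) * A ^ K *
        ((18 * C + 9) * (((K : ℝ) + 1) * (1 + 2 * Real.log X) ^ 2)) := by ring
    _ = ((o₁ : ℝ) + 1) * A ^ K * A := by rw [← hA]
    _ = _ := by ring

/-- At every level only finitely many prime powers are exceptional. -/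
theorem exc_finite (hF : Gr F C) {m r : ℕ} (hm : 0 < m) (h : ¬ F.Van m r) :
    {Q : ℕ | IsPrimePow Q ∧ F.Van (m * Q) 1}.Finite := by
  obtain ⟨o, -, ho⟩ := exists_ex h
  by_contra hinf
  obtain ⟨B, hB⟩ : ∃ B : ℝ, B = (9 * C + 4) *
      (((m.primeFactors.card : ℝ) + 1) * ((o : ℝ) + 1) *
        (1 + Real.log (((o + 1) * m : ℕ) : ℝ)) ^ 2) := ⟨_, rfl⟩
  obtain ⟨k, hk⟩ := exists_nat_gt (2 * B)
  obtain ⟨E, hE, hcard⟩ := Set.Infinite.exists_subset_card_eq hinf k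
  have h1 := exc_sum hF hm ho E (fun _ => 1) (fun Q hQ => hE hQ)
  simp only [Nat.cast_one, one_mul] at h1
  rw [← hB] at h1
  have h2 : (E.card : ℝ) * (1 / 2) ≤ ∑ Q ∈ E, Real.log Q.minFac := by
    have h3 : (E.card : ℝ) * (1 / 2) = ∑ Q ∈ E, (1 / 2 : ℝ) := by simp
    rw [h3]
    refine Finset.sum_le_sum fun Q hQ => ?_
    exact half_le_log (hE hQ).1
  rw [hcard] at h2
  linarith

end Pool.Agent.U476.ZO
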