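import Pool.Agent.U476.NB.Cls

/-! The universal state sum: labels bounded by `M`, over any ring with a unit `v`. -/

set_option autoImplicit false

namespace Pool.Agent.U476.ZO

open Finset
open Pool.Agent.U476.NB

variable {A : Type} [CommRing A] {B : Type} [CommRing B]

/-- The universal positive crossing. -/
def uP (M : ℕ) (v : Aˣ) : Matrix (Fin M × Fin M) (Fin M × Fin M) A :=
  fun p q => if (p.1 : ℕ) + p.2 = q.1 + q.2 ∧ (q.2 : ℕ) ≤ p.1 then
    (-1) ^ (1 + (q.1 : ℕ) + q.2) *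
      ((v ^ ((1 + (q.1 : ℕ) + (q.2 : ℕ) : ℤ) + 2 * (p.1 : ℕ) * (p.2 : ℕ)) : Aˣ) : A) *
      (v : A) ^ (((p.1 : ℕ) - q.2) * ((p.1 : ℕ) - q.2 - 1) / 2) *
      gb v p.1 ((p.1 : ℕ) - q.2) *
      ∏ t ∈ range ((p.1 : ℕ) - q.2), gbr v ((q.1 : ℤ) - t)
    else 0

/-- The universal negative crossing. -/
def uN (M : ℕ) (v : Aˣ) : Matrix (Fin M × Fin M) (Fin M × Fin M) A :=
  fun p q => if (p.1 : ℕ) + p.2 = q.1 + q.2 ∧ (q.1 : ℕ) ≤ p.2 then
    (-1) ^ ((p.2 : ℕ) - q.1) * ((-1) ^ (1 + (q.1 : ℕ) + q.2) *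
      ((v ^ (-(1 + (q.1 : ℕ) + (q.2 : ℕ) : ℤ) - 2 * (q.1 : ℕ) * (q.2 : ℕ)) : Aˣ) : A)) *
      ((v⁻¹ : Aˣ) : A) ^ (((p.2 : ℕ) - q.1) * ((p.2 : ℕ) - q.1 - 1) / 2) *
      gb v p.2 ((p.2 : ℕ) - q.1) *
      ∏ t ∈ range ((p.2 : ℕ) - q.1), gbr v ((q.2 : ℤ) - t)
    else 0

/-- The weights. -/
def uw (v : Aˣ) (x : ℕ) : A := -((v ^ (-1 - 2 * (x : ℤ)) : Aˣ) : A)

/-- The universal state sum with labels less than `M`. -/
def uj (M n : ℕ) (w : List (ℕ × Bool)) (v : Aˣ) : A :=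
  if h : 0 < M then
    gtail (fun x : Fin M => uw v x) n (grep (uP M v) (uN M v) (n + 1) w) ⟨0, h⟩ ⟨0, h⟩ else 0

/-! ### functoriality -/

lemma map_uP (φ : A →+* B) (N : ℕ) (v : Aˣ) :
    (uP N v).map φ = uP N (Units.map (φ : A →* B) v) := by
  ext p q
  rw [Matrix.map_apply, uP, uP]
  split_ifs
  · rw [map_mul, map_mul, map_mul, map_mul, map_zp, map_pow, map_pow, map_gb, map_prod, map_neg,
      map_one]
    simp only [map_gbr]
    rfl
  · exact map_zero φ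

lemma map_uN (φ : A →+* B) (N : ℕ) (v : Aˣ) :
    (uN N v).map φ = uN N (Units.map (φ : A →* B) v) := by
  ext p q
  rw [Matrix.map_apply, uN, uN]
  split_ifs
  · rw [map_mul, map_mul, map_mul, map_mul, map_mul, map_zp, map_pow, map_pow, map_pow, map_gb,
      map_prod, map_neg, map_one]
    simp only [map_gbr]
    rfl
  · exact map_zero φ

lemma map_uw (φ : A →+* B) (v : Aˣ) (x : ℕ) :
    φ (uw v x) = uw (Units.map (φ : A →* B) v) x := by
  rw [uw, uw, map_neg, map_zp]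

lemma map_uj (φ : A →+* B) (N n : ℕ) (w : List (ℕ × Bool)) (v : Aˣ) :
    φ (uj N n w v) = uj N n w (Units.map (φ : A →* B) v) := by
  rw [uj, uj]
  split_ifs with h
  · rw [gtail, gtail, map_sum]
    refine Finset.sum_congr rfl fun s _ => ?_
    rw [map_mul, map_prod, ← map_uP, ← map_uN, ← map_grep, Matrix.map_apply]
    simp only [map_uw]
  · exact map_zero φ

/-! ### comparison with the coloured Jones polynomial -/

section cmp

variable (N : ℕ) (v : Aˣ) (hv : v ^ N = -1)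

include hv

lemma vN_zpow (k : ℤ) : v ^ ((N : ℤ) * k) = (-1) ^ k := by
  rw [zpow_mul, zpow_natCast, hv]

omit hv in
lemma neg_one_zpow_neg (k : ℤ) : (-1 : Aˣ) ^ (-k) = (-1) ^ k := by
  rw [zpow_neg, ← inv_zpow]
  congr 1

lemma gbr_refl (x : ℤ) : gbr v ((N : ℤ) - x) = gbr v x := by
  have h1 : v ^ ((N : ℤ) - x) = -1 * v ^ (-x) := by
    rw [sub_eq_add_neg, zpow_add, zpow_natCast, hv]
  have h2 : v ^ (-((N : ℤ) - x)) = -1 * v ^ x := by
    rw [zpow_neg, h1, zpow_neg]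
    apply Units.ext
    simp
  rw [gbr, gbr, h1, h2]
  push_cast
  ring

lemma gP_uP : gP N v = uP N v := by
  ext p q
  rw [gP, uP]
  split_ifs with h
  · have e1 : v ^ (-((N : ℤ) - 1) * (1 + (q.1 : ℕ) + (q.2 : ℕ)) + 2 * (p.1 : ℕ) * (p.2 : ℕ)) =
        (-1) ^ (1 + (q.1 : ℕ) + q.2) *
          v ^ ((1 + (q.1 : ℕ) + (q.2 : ℕ) : ℤ) + 2 * (p.1 : ℕ) * (p.2 : ℕ)) := by
      have : -((N : ℤ) - 1) * (1 + (q.1 : ℕ) + (q.2 : ℕ)) + 2 * (p.1 : ℕ) * (p.2 : ℕ) =
          (N : ℤ) * (-((1 + (q.1 : ℕ) + (q.2 : ℕ) : ℕ) : ℤ)) +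
            ((1 + (q.1 : ℕ) + (q.2 : ℕ) : ℤ) + 2 * (p.1 : ℕ) * (p.2 : ℕ)) := by
        push_cast; ring
      rw [this, zpow_add, vN_zpow N v hv, neg_one_zpow_neg, zpow_natCast]
    have e2 : ∏ t ∈ range ((p.1 : ℕ) - q.2), gbr v ((N : ℤ) - (q.1 : ℕ) + t) =
        ∏ t ∈ range ((p.1 : ℕ) - q.2), gbr v ((q.1 : ℤ) - t) := by
      refine Finset.prod_congr rfl fun t _ => ?_
      rw [← gbr_refl N v hv]
      congr 1; ring
    rw [e1, e2]
    push_cast
    ring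
  · rfl

lemma gN_uN : gN N v = uN N v := by
  ext p q
  rw [gN, uN]
  split_ifs with h
  · have e1 : v ^ (((N : ℤ) - 1) * (1 + (q.1 : ℕ) + (q.2 : ℕ)) - 2 * (q.1 : ℕ) * (q.2 : ℕ)) =
        (-1) ^ (1 + (q.1 : ℕ) + q.2) *
          v ^ (-(1 + (q.1 : ℕ) + (q.2 : ℕ) : ℤ) - 2 * (q.1 : ℕ) * (q.2 : ℕ)) := by
      have : ((N : ℤ) - 1) * (1 + (q.1 : ℕ) + (q.2 : ℕ)) - 2 * (q.1 : ℕ) * (q.2 : ℕ) =
          (N : ℤ) * ((1 + (q.1 : ℕ) + (q.2 : ℕ) : ℕ) : ℤ) +
            (-(1 + (q.1 : ℕ) + (q.2 : ℕ) : ℤ) - 2 * (q.1 : ℕ) * (q.2 : ℕ)) := by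
        push_cast; ring
      rw [this, zpow_add, vN_zpow N v hv, zpow_natCast]
    have e2 : ∏ t ∈ range ((p.2 : ℕ) - q.1), gbr v ((N : ℤ) - (q.2 : ℕ) + t) =
        ∏ t ∈ range ((p.2 : ℕ) - q.1), gbr v ((q.2 : ℤ) - t) := by
      refine Finset.prod_congr rfl fun t _ => ?_
      rw [← gbr_refl N v hv]
      congr 1; ring
    rw [e1, e2]
    push_cast
    ring
  · rfl

/-- At `v ^ N = -1` the state sum with labels less than `N` is the coloured Jones polynomial. -/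
lemma uj_eq_cj (n : ℕ) (w : List (ℕ × Bool)) : uj N n w v = cj N n w v := by
  rw [uj, cj, gP_uP N v hv, gN_uN N v hv]
  split_ifs with h
  · have e : (fun x : Fin N => uw v x) =
        fun x : Fin N => ((v ^ ((N : ℤ) - 1 - 2 * (x : ℕ)) : Aˣ) : A) := by
      funext x
      have : (N : ℤ) - 1 - 2 * (x : ℕ) = N * 1 + (-1 - 2 * (x : ℤ)) := by ring
      rw [uw, this, zpow_add, vN_zpow N v hv]
      simp
    rw [e]
  · rfl

end cmp

/-! ### divisibility of the entries -/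

section gd

variable (v : Aˣ) (M : ℕ)

/-- The number of the strands which cross the level `c + 1/2` downwards. -/
def nd {n : ℕ} (c : ℕ) (π : Equiv.Perm (Fin n)) (s t : Fin n → Fin M) : ℕ :=
  (univ.filter fun j => c < (t j : ℕ) ∧ (s (π j) : ℕ) ≤ c).card

/-- The entries are divisible by the brackets of the levels which are crossed downwards. -/
def Gd {n : ℕ} (π : Equiv.Perm (Fin n)) (X : Matrix (Fin n → Fin M) (Fin n → Fin M) A) : Prop :=
  ∀ s t, ∏ c ∈ range M, gbr v ((c : ℤ) + 1) ^ nd M c π s t ∣ X s t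

variable {M}

lemma nd_mul {n : ℕ} (c : ℕ) (π ρ : Equiv.Perm (Fin n)) (s u t : Fin n → Fin M) :
    nd M c (π * ρ) s t ≤ nd M c π s u + nd M c ρ u t := by
  have h1 : nd M c π s u = (univ.filter fun j => c < (u (ρ j) : ℕ) ∧ (s (π (ρ j)) : ℕ) ≤ c).card := by
    rw [nd]
    symm
    refine Finset.card_bij (fun j _ => ρ j) ?_ ?_ ?_
    · intro j hj
      simpa using hj
    · intro a _ b _ h
      exact ρ.injective h
    · intro b hb
      refine ⟨ρ.symm b, ?_, by simp⟩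
      simpa using hb
  have h2 : (univ.filter fun j => c < (t j : ℕ) ∧ (s ((π * ρ) j) : ℕ) ≤ c) ⊆
      (univ.filter fun j => c < (t j : ℕ) ∧ (u (ρ j) : ℕ) ≤ c) ∪
        (univ.filter fun j => c < (u (ρ j) : ℕ) ∧ (s (π (ρ j)) : ℕ) ≤ c) := by
    intro j hj
    rw [mem_filter] at hj
    rw [mem_union, mem_filter, mem_filter]
    obtain ⟨_, a1, a2⟩ := hj
    rw [Equiv.Perm.mul_apply] at a2
    by_cases h : (u (ρ j) : ℕ) ≤ c
    · exact Or.inl ⟨mem_univ _, a1, h⟩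
    · exact Or.inr ⟨mem_univ _, by omega, a2⟩
  have h3 := (Finset.card_le_card h2).trans (Finset.card_union_le _ _)
  rw [h1, add_comm]
  exact h3

variable {v}

lemma Gd.mul {n : ℕ} {π ρ : Equiv.Perm (Fin n)} {X Y : Matrix (Fin n → Fin M) (Fin n → Fin M) A}
    (hX : Gd v M π X) (hY : Gd v M ρ Y) : Gd v M (π * ρ) (X * Y) := by
  intro s t
  rw [Matrix.mul_apply]
  refine Finset.dvd_sum fun u _ => ?_
  refine dvd_trans ?_ (mul_dvd_mul (hX s u) (hY u t))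
  rw [← Finset.prod_mul_distrib]
  refine Finset.prod_dvd_prod_of_dvd _ _ fun c _ => ?_
  rw [← pow_add]
  exact pow_dvd_pow _ (nd_mul c π ρ s u t)

lemma nd_one_self {n : ℕ} (c : ℕ) (s : Fin n → Fin M) : nd M c 1 s s = 0 := by
  rw [nd, Finset.card_eq_zero, Finset.filter_eq_empty_iff]
  intro j _ h
  simp only [Equiv.Perm.coe_one, id_eq] at h
  omega

lemma Gd.diag {n : ℕ} (d : (Fin n → Fin M) → A) : Gd v M 1 (Matrix.diagonal d) := by
  intro s t
  by_cases h : s = t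
  · subst h
    rw [Finset.prod_eq_one (fun c _ => by rw [nd_one_self, pow_zero])]
    exact one_dvd _
  · rw [Matrix.diagonal_apply_ne _ h]
    exact dvd_zero _

lemma Gd.one {n : ℕ} : Gd v M (1 : Equiv.Perm (Fin n)) 1 := by
  rw [← Matrix.diagonal_one]
  exact Gd.diag _

/-- The property of a crossing. -/
def Cg (v : Aˣ) (X : Matrix (Fin M × Fin M) (Fin M × Fin M) A) : Prop :=
  ∀ p q : Fin M × Fin M, ∏ c ∈ range M, gbr v ((c : ℤ) + 1) ^
    ((if c < (q.1 : ℕ) ∧ (p.2 : ℕ) ≤ c then 1 else 0) +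
      (if c < (q.2 : ℕ) ∧ (p.1 : ℕ) ≤ c then 1 else 0)) ∣ X p q

lemma Gd.gen {X : Matrix (Fin M × Fin M) (Fin M × Fin M) A} (hX : Cg v X) (n k : ℕ) :
    Gd v M (tau n k) (ggen X n k) := by
  intro s t
  rw [ggen]
  split_ifs with h1 h2 h2
  · refine dvd_trans (Finset.prod_dvd_prod_of_dvd _ _ fun c _ => pow_dvd_pow _ ?_)
      (hX (s ⟨k, by omega⟩, s ⟨k + 1, h1⟩) (t ⟨k, by omega⟩, t ⟨k + 1, h1⟩))
    simp only
    have hsub : (univ.filter fun j => c < (t j : ℕ) ∧ (s (tau n k j) : ℕ) ≤ c) ⊆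
        (if c < (t ⟨k, by omega⟩ : ℕ) ∧ (s ⟨k + 1, h1⟩ : ℕ) ≤ c then {⟨k, by omega⟩} else ∅) ∪
        (if c < (t ⟨k + 1, h1⟩ : ℕ) ∧ (s ⟨k, by omega⟩ : ℕ) ≤ c then {⟨k + 1, h1⟩} else ∅) := by
      intro j hj
      simp only [mem_filter, mem_univ, true_and] at hj
      rw [tau, dif_pos h1] at hj
      by_cases j1 : (j : ℕ) = k
      · have : j = ⟨k, by omega⟩ := Fin.ext j1
        rw [this, Equiv.swap_apply_left] at hj
        rw [mem_union, if_pos hj]
        left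
        rw [this]; simp
      · by_cases j2 : (j : ℕ) = k + 1
        · have : j = ⟨k + 1, h1⟩ := Fin.ext j2
          rw [this, Equiv.swap_apply_right] at hj
          rw [mem_union, if_pos hj]
          right
          rw [this]; simp
        · rw [Equiv.swap_apply_of_ne_of_ne (fun h => j1 (congrArg Fin.val h))
            (fun h => j2 (congrArg Fin.val h)), h2 j j1 j2] at hj
          omega
    refine (Finset.card_le_card hsub).trans ((Finset.card_union_le _ _).trans ?_)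
    refine add_le_add ?_ ?_
    · split_ifs <;> simp
    · split_ifs <;> simp
  · exact dvd_zero _
  · subst h2
    have : tau n k = 1 := by rw [tau, dif_neg h1]
    rw [this, Finset.prod_eq_one (fun c _ => by rw [nd_one_self, pow_zero])]
  · exact dvd_zero _

/-- A product of consecutive brackets. -/
lemma prod_down (a b m : ℕ) (hm : m + b = a) (haM : a ≤ M) :
    ∏ c ∈ range M, gbr v ((c : ℤ) + 1) ^ (if c < a ∧ b ≤ c then 1 else 0) =
      ∏ t ∈ range m, gbr v ((a : ℤ) - t) := by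
  have h1 : ∏ c ∈ range M, gbr v ((c : ℤ) + 1) ^ (if c < a ∧ b ≤ c then 1 else 0) =
      ∏ c ∈ Ico b a, gbr v ((c : ℤ) + 1) := by
    have e : Ico b a = (range M).filter fun c => c < a ∧ b ≤ c := by
      ext c
      simp only [mem_Ico, mem_filter, mem_range]
      constructor
      · intro h; exact ⟨by omega, h.2, h.1⟩
      · intro h; exact ⟨h.2.2, h.2.1⟩
    rw [e, Finset.prod_filter]
    refine Finset.prod_congr rfl fun c _ => ?_
    split_ifs <;> simp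
  rw [h1, Finset.prod_Ico_eq_prod_range, show a - b = m by omega, ← Finset.prod_range_reflect]
  refine Finset.prod_congr rfl fun t ht => ?_
  have := mem_range.1 ht
  congr 1
  omega

lemma uP_Cg : Cg v (uP M v) := by
  intro p q
  rw [uP]
  split_ifs with h
  · refine Dvd.dvd.mul_left ?_ _
    rw [← prod_down (v := v) (M := M) (q.1 : ℕ) (p.2 : ℕ) ((p.1 : ℕ) - q.2) (by omega)
      (by have := q.1.2; omega)]
    refine Finset.prod_dvd_prod_of_dvd _ _ fun c _ => ?_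
    have : ¬ (c < (q.2 : ℕ) ∧ (p.1 : ℕ) ≤ c) := by omega
    rw [if_neg this, add_zero]
  · exact dvd_zero _

lemma uN_Cg : Cg v (uN M v) := by
  intro p q
  rw [uN]
  split_ifs with h
  · refine Dvd.dvd.mul_left ?_ _
    rw [← prod_down (v := v) (M := M) (q.2 : ℕ) (p.1 : ℕ) ((p.2 : ℕ) - q.1) (by omega)
      (by have := q.2.2; omega)]
    refine Finset.prod_dvd_prod_of_dvd _ _ fun c _ => ?_
    have : ¬ (c < (q.1 : ℕ) ∧ (p.2 : ℕ) ≤ c) := by omega
    rw [if_neg this, zero_add]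
  · exact dvd_zero _

lemma Gd.rep (n : ℕ) (w : List (ℕ × Bool)) :
    Gd v M (perm n w) (grep (uP M v) (uN M v) n w) := by
  induction w with
  | nil =>
    have h1 : perm n [] = 1 := by simp [perm]
    have h2 : grep (uP M v) (uN M v) n [] = 1 := by simp [grep]
    rw [h1, h2]
    exact Gd.one
  | cons g w ih =>
    rw [perm_cons, grep_cons]
    refine Gd.mul (Gd.gen ?_ _ _) ih
    split_ifs
    · exact uP_Cg
    · exact uN_Cg

/-! ### the cut -/

lemma cut {n K : ℕ} (hK : K ≤ M) {π ρ : Equiv.Perm (Fin (n + 1))}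
    {Y Z : Matrix (Fin (n + 1) → Fin M) (Fin (n + 1) → Fin M) A}
    (hY : Gd v M π Y) (hZ : Gd v M ρ Z)
    (hπ : ∀ k : Fin (n + 1), ∃ i : ℕ, ((π * ρ) ^ i) 0 = k)
    (s u : Fin (n + 1) → Fin M) (hs : (s 0 : ℕ) = 0) (j : Fin (n + 1)) (hj : K ≤ (u j : ℕ)) :
    ∏ c ∈ range K, gbr v ((c : ℤ) + 1) ∣ Y s u * Z u s := by
  refine dvd_trans ?_ (mul_dvd_mul (hY s u) (hZ u s))
  rw [← Finset.prod_mul_distrib]
  refine dvd_trans ?_ (Finset.prod_dvd_prod_of_subset _ _ _ (Finset.range_subset_range.2 hK))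
  refine Finset.prod_dvd_prod_of_dvd _ _ fun c hc => ?_
  have hc' := mem_range.1 hc
  rw [← pow_add]
  refine dvd_pow_self _ ?_
  intro h0
  have h1 : nd M c π s u = 0 := by omega
  have h2 : nd M c ρ u s = 0 := by omega
  rw [nd, Finset.card_eq_zero, Finset.filter_eq_empty_iff] at h1 h2
  have h3 : ∀ i, c < (s i : ℕ) → c < (s ((π * ρ) i) : ℕ) := by
    intro i hi
    have a1 : ¬ ((u (ρ i) : ℕ) ≤ c) := fun h => h2 (mem_univ i) ⟨hi, h⟩
    have a2 : ¬ ((s (π (ρ i)) : ℕ) ≤ c) := fun h => h1 (mem_univ (ρ i)) ⟨by omega, h⟩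
    rw [Equiv.Perm.mul_apply]
    omega
  have h4 : c < (s (π j) : ℕ) := by
    have a2 : ¬ ((s (π j) : ℕ) ≤ c) := fun h => h1 (mem_univ j) ⟨by omega, h⟩
    omega
  have h5 : ∀ i : ℕ, c < (s (((π * ρ) ^ i) (π j)) : ℕ) := by
    intro i
    induction i with
    | zero => simpa using h4
    | succ i ih => rw [pow_succ', Equiv.Perm.mul_apply]; exact h3 _ ih
  obtain ⟨i, hi⟩ := hπ (π j)
  have h6 := h5 (orderOf (π * ρ) * i - i)
  have h7 : ((π * ρ) ^ (orderOf (π * ρ) * i - i)) (π j) = 0 := by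
    rw [← hi, ← Equiv.Perm.mul_apply, ← pow_add, Nat.sub_add_cancel, pow_mul, pow_orderOf_eq_one,
      one_pow]
    · rfl
    · have : 0 < orderOf (π * ρ) := orderOf_pos _
      exact Nat.le_mul_of_pos_left i this
  rw [h7, hs] at h6
  omega

end gd

end Pool.Agent.U476.ZO
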