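import Pool.Agent.U476.ZO.Uni

/-! The universal state sums of a knot with labels less than `M` and less than `K ≤ M` are congruent
modulo `{1} ⋯ {K}`. -/

set_option autoImplicit false

namespace Pool.Agent.U476.ZO

open Finset
open Pool.Agent.U476.NB

variable {A : Type} [CommRing A]

section tele

variable {v : Aˣ} {M : ℕ}

/-- The projection to the labels less than `K`. -/
def EE (n K M : ℕ) (A : Type) [CommRing A] : Matrix (Fin n → Fin M) (Fin n → Fin M) A :=
  Matrix.diagonal fun s => if ∀ j, (s j : ℕ) < K then 1 else 0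

/-- The state sum with all labels less than `K`. -/
def TT (v : Aˣ) (n K M : ℕ) : List (ℕ × Bool) → Matrix (Fin n → Fin M) (Fin n → Fin M) A
  | [] => EE n K M A
  | g :: w => EE n K M A * ggen (if g.2 then uP M v else uN M v) n g.1 * TT v n K M w

lemma Cg_if (g : ℕ × Bool) : Cg v (if g.2 then uP M v else uN M v) := by
  split_ifs
  · exact uP_Cg
  · exact uN_Cg

lemma tele {n K : ℕ} (hK : K ≤ M) (w : List (ℕ × Bool)) :
    ∀ (π : Equiv.Perm (Fin (n + 1))) (Y : Matrix (Fin (n + 1) → Fin M) (Fin (n + 1) → Fin M) A),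
      Gd v M π Y → (∀ k : Fin (n + 1), ∃ i : ℕ, ((π * perm (n + 1) w) ^ i) 0 = k) →
      ∀ s : Fin (n + 1) → Fin M, (s 0 : ℕ) = 0 →
        ∏ c ∈ range K, gbr v ((c : ℤ) + 1) ∣
          (Y * (grep (uP M v) (uN M v) (n + 1) w - TT v (n + 1) K M w)) s s := by
  induction w with
  | nil =>
    intro π Y hY hπ s hs
    have h1 : grep (uP M v) (uN M v) (n + 1) [] - TT v (n + 1) K M [] =
        Matrix.diagonal fun s : Fin (n + 1) → Fin M => 1 - if ∀ j, (s j : ℕ) < K then (1 : A) else 0 := by
      rw [TT, EE, grep, List.map_nil, List.prod_nil, ← Matrix.diagonal_one, Matrix.diagonal_sub]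
    rw [h1, Matrix.mul_diagonal]
    by_cases h : ∀ j, (s j : ℕ) < K
    · rw [if_pos h, sub_self, mul_zero]; exact dvd_zero _
    · push Not at h
      obtain ⟨j, hj⟩ := h
      have h2 := cut hK hY (Gd.one (v := v) (M := M) (n := n + 1)) (by simpa [perm] using hπ) s s hs j hj
      rw [Matrix.one_apply_eq, mul_one] at h2
      exact h2.mul_right _
  | cons g w ih =>
    intro π Y hY hπ s hs
    set G := ggen (if g.2 then uP M v else uN M v) (n + 1) g.1 with hG
    have hGd : Gd v M (tau (n + 1) g.1) G := Gd.gen (Cg_if g) _ _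
    have e : Y * (grep (uP M v) (uN M v) (n + 1) (g :: w) - TT v (n + 1) K M (g :: w)) =
        Y * (1 - EE (n + 1) K M A) * (G * grep (uP M v) (uN M v) (n + 1) w) +
          (Y * EE (n + 1) K M A * G) *
            (grep (uP M v) (uN M v) (n + 1) w - TT v (n + 1) K M w) := by
      rw [grep_cons, TT, ← hG]
      noncomm_ring
    rw [e, Matrix.add_apply]
    refine dvd_add ?_ ?_
    · rw [Matrix.mul_apply]
      refine Finset.dvd_sum fun u _ => ?_
      have h1 : (1 - EE (n + 1) K M A) = Matrix.diagonal fun s : Fin (n + 1) → Fin M =>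
          1 - if ∀ j, (s j : ℕ) < K then (1 : A) else 0 := by
        rw [EE, ← Matrix.diagonal_one, Matrix.diagonal_sub]
      rw [h1, Matrix.mul_diagonal]
      by_cases h : ∀ j, (u j : ℕ) < K
      · rw [if_pos h, sub_self, mul_zero, zero_mul]; exact dvd_zero _
      · push Not at h
        obtain ⟨j, hj⟩ := h
        have h2 := cut hK hY (hGd.mul (Gd.rep (v := v) (M := M) (n + 1) w))
          (by rw [← perm_cons]; exact hπ) s u hs j hj
        rw [mul_right_comm]
        exact h2.mul_right _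
    · refine ih _ _ ((hY.mul (Gd.diag _)).mul hGd) ?_ s hs
      rw [mul_one, mul_assoc, ← perm_cons]
      exact hπ

lemma TT_row {n K : ℕ} (w : List (ℕ × Bool)) (s t : Fin n → Fin M) (h : ¬ ∀ j, (s j : ℕ) < K) :
    TT v n K M w s t = 0 := by
  cases w with
  | nil =>
    rw [TT, EE, Matrix.diagonal_apply]
    split_ifs <;> rfl
  | cons g w =>
    rw [TT, EE, mul_assoc, Matrix.diagonal_mul, if_neg h, zero_mul]

lemma inc_of_lt {n K : ℕ} (hK : K ≤ M) (u : Fin n → Fin M) (h : ∀ j, (u j : ℕ) < K) :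
    ∃ u' : Fin n → Fin K, (fun j => inc K M hK (u' j)) = u :=
  ⟨fun j => ⟨u j, h j⟩, rfl⟩

lemma inc_lt {K : ℕ} (hK : K ≤ M) (x : Fin K) : ((inc K M hK x : Fin M) : ℕ) < K := x.2

lemma uP_inc {K : ℕ} (hK : K ≤ M) (p q : Fin K × Fin K) :
    uP M v (inc K M hK p.1, inc K M hK p.2) (inc K M hK q.1, inc K M hK q.2) = uP K v p q := rfl

lemma uN_inc {K : ℕ} (hK : K ≤ M) (p q : Fin K × Fin K) :
    uN M v (inc K M hK p.1, inc K M hK p.2) (inc K M hK q.1, inc K M hK q.2) = uN K v p q := rfl

lemma TT_inc {n K : ℕ} (hK : K ≤ M) (w : List (ℕ × Bool)) : ∀ s t : Fin n → Fin K,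
    TT v n K M w (fun j => inc K M hK (s j)) (fun j => inc K M hK (t j)) =
      grep (uP K v) (uN K v) n w s t := by
  have hone : ∀ s : Fin n → Fin K,
      (if ∀ j, ((inc K M hK (s j) : Fin M) : ℕ) < K then (1 : A) else 0) = 1 := fun s =>
    if_pos fun j => inc_lt hK (s j)
  induction w with
  | nil =>
    intro s t
    rw [TT, EE, grep, List.map_nil, List.prod_nil, Matrix.diagonal_apply, Matrix.one_apply]
    have h2 : (fun j => inc K M hK (s j)) = (fun j => inc K M hK (t j)) ↔ s = t := by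
      constructor
      · intro h; funext j; exact inc_inj K M hK (congrFun h j)
      · rintro rfl; rfl
    by_cases h3 : s = t
    · rw [if_pos (h2.2 h3), if_pos h3, hone]
    · rw [if_neg (fun h => h3 (h2.1 h)), if_neg h3]
  | cons g w ih =>
    intro s t
    rw [TT, EE, mul_assoc, Matrix.diagonal_mul, hone, one_mul, grep_cons, Matrix.mul_apply,
      Matrix.mul_apply]
    symm
    refine Fintype.sum_of_injective (fun (u : Fin n → Fin K) => fun j => inc K M hK (u j)) ?_
      _ _ ?_ ?_
    · intro a b h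
      funext j
      exact inc_inj K M hK (congrFun h j)
    · intro u hu'
      by_contra h
      apply hu'
      have h1 := right_ne_zero_of_mul h
      have h2 : ∀ j, (u j : ℕ) < K := by
        by_contra h3
        exact h1 (TT_row w u _ h3)
      obtain ⟨u', hu''⟩ := inc_of_lt hK u h2
      exact ⟨u', hu''⟩
    · intro u
      rw [ih u t]
      congr 1
      symm
      apply ggen_inc K M hK
      intro p q
      split_ifs
      · exact uP_inc hK p q
      · exact uN_inc hK p q

end tele

/-- The congruence. -/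
theorem uj_cong (v : Aˣ) {K M : ℕ} (hK : K ≤ M) (n : ℕ) (w : List (ℕ × Bool))
    (hw : ∀ k : Fin (n + 1), ∃ i : ℕ, (perm (n + 1) w ^ i) 0 = k) :
    ∏ c ∈ range K, gbr v ((c : ℤ) + 1) ∣ uj M n w v - uj K n w v := by
  rcases Nat.eq_zero_or_pos K with h0 | h0
  · subst h0
    rw [range_zero, Finset.prod_empty]
    exact one_dvd _
  have hM0 : 0 < M := by omega
  have hT : uj K n w v = ∑ s : Fin n → Fin M, (∏ x, uw v (s x)) *
      TT v (n + 1) K M w (Fin.cons ⟨0, hM0⟩ s) (Fin.cons ⟨0, hM0⟩ s) := by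
    rw [uj, dif_pos h0, gtail]
    have hcons : ∀ u : Fin n → Fin K, (Fin.cons ⟨0, hM0⟩ (fun j => inc K M hK (u j)) :
        Fin (n + 1) → Fin M) = fun j => inc K M hK ((Fin.cons ⟨0, h0⟩ u : Fin (n + 1) → Fin K) j) := by
      intro u
      funext j
      refine Fin.cases ?_ (fun i => ?_) j
      · rfl
      · simp
    refine Fintype.sum_of_injective (fun (u : Fin n → Fin K) => fun j => inc K M hK (u j)) ?_
      _ _ ?_ ?_
    · intro a b h
      funext j
      exact inc_inj K M hK (congrFun h j)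
    · intro s hs
      by_contra h
      apply hs
      have h1 := right_ne_zero_of_mul h
      have h2 : ∀ j, ((Fin.cons ⟨0, hM0⟩ s : Fin (n + 1) → Fin M) j : ℕ) < K := by
        by_contra h3
        exact h1 (TT_row w _ _ h3)
      obtain ⟨s', hs'⟩ := inc_of_lt hK s fun j => by
        have := h2 j.succ
        rwa [Fin.cons_succ] at this
      exact ⟨s', hs'⟩
    · intro u
      rw [hcons, TT_inc hK]
      rfl
  rw [hT, uj, dif_pos hM0, gtail, ← Finset.sum_sub_distrib]
  refine Finset.dvd_sum fun s _ => ?_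
  rw [← mul_sub]
  refine Dvd.dvd.mul_left ?_ _
  have h1 := tele (v := v) (M := M) (n := n) hK w 1 1 Gd.one (by simpa using hw)
    (Fin.cons ⟨0, hM0⟩ s) rfl
  rw [one_mul, Matrix.sub_apply] at h1
  exact h1

end Pool.Agent.U476.ZO
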