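import Pool.Agent.U476.ZO.Uni2
import Pool.Agent.U476.NB.Rel2

/-! Upper bounds for the universal state sum at a complex number. -/

set_option autoImplicit false

namespace Pool.Agent.U476.ZO

open Finset
open Pool.Agent.U476.NB
open Pool.Agent.H550R3.Jones (br brf gen rep)

section growth

variable {M : ℕ} {u : ℂˣ} {β : ℝ}

lemma brf_split (u : ℂˣ) (a b : ℕ) (hb : b ≤ a) : brf (u : ℂ) a = brf (u : ℂ) (a - b) *
    ∏ t ∈ range b, gbr u ((a : ℤ) - t) := by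
  obtain ⟨c, rfl⟩ := Nat.exists_eq_add_of_le' hb
  rw [Nat.add_sub_cancel, Pool.Agent.H550R3.Jones.brf, Pool.Agent.H550R3.Jones.brf,
    Finset.prod_range_add]
  congr 1
  rw [← Finset.prod_range_reflect]
  refine Finset.prod_congr rfl fun t ht => ?_
  have := Finset.mem_range.1 ht
  rw [gbr_coe]
  congr 1
  push_cast [Nat.cast_sub (show t ≤ b - 1 by omega), Nat.cast_sub (show 1 ≤ b by omega)]
  ring

variable (hz : ∀ j : ℤ, |j| ≤ 8 * (M : ℤ) ^ 2 → ‖(u : ℂ) ^ j‖ ≤ 3)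
  (hb : ∀ k < M, brf (u : ℂ) k ≠ 0 ∧ |Real.log ‖brf (u : ℂ) k‖| ≤ β)

include hb in
lemma brf_ub (k : ℕ) (hk : k < M) : ‖brf (u : ℂ) k‖ ≤ Real.exp β := by
  obtain ⟨h1, h2⟩ := hb k hk
  rw [← Real.log_le_iff_le_exp (norm_pos_iff.2 h1)]
  exact (le_abs_self _).trans h2

include hb in
lemma brf_lb (k : ℕ) (hk : k < M) : ‖brf (u : ℂ) k‖⁻¹ ≤ Real.exp β := by
  obtain ⟨h1, h2⟩ := hb k hk
  have h0 := norm_pos_iff.2 h1
  rw [← Real.log_le_iff_le_exp (inv_pos.2 h0), Real.log_inv]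
  exact (neg_le_abs _).trans h2

include hb in
lemma br_ne' (k : ℕ) (h0 : 0 < k) (hk : k < M) : br (u : ℂ) k ≠ 0 := by
  obtain ⟨h1, -⟩ := hb k hk
  rw [Pool.Agent.H550R3.Jones.brf] at h1
  have h2 := Finset.prod_ne_zero_iff.1 h1 (k - 1) (mem_range.2 (by omega))
  have e : (((k - 1 : ℕ) : ℤ) + 1) = (k : ℤ) := by omega
  rwa [e] at h2

include hb in
lemma gb_le (a b : ℕ) (ha : a < M) (hba : b ≤ a) : ‖gb u a b‖ ≤ Real.exp β ^ 3 := by
  rw [gb_eq u (N := M) (br_ne' hb) a b ha hba, div_eq_mul_inv, mul_inv, norm_mul, norm_mul,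
    norm_inv, norm_inv]
  have a1 := brf_ub hb a ha
  have a2 := brf_lb hb (a - b) (by omega)
  have a3 := brf_lb hb b (by omega)
  calc ‖brf (u : ℂ) a‖ * (‖brf (u : ℂ) (a - b)‖⁻¹ * ‖brf (u : ℂ) b‖⁻¹)
      ≤ Real.exp β * (Real.exp β * Real.exp β) := by gcongr
    _ = Real.exp β ^ 3 := by ring

include hb in
lemma pr_le (a b : ℕ) (ha : a < M) (hba : b ≤ a) :
    ‖∏ t ∈ range b, gbr u ((a : ℤ) - t)‖ ≤ Real.exp β ^ 2 := by
  have h1 := brf_split u a b hba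
  have h2 : brf (u : ℂ) (a - b) ≠ 0 := (hb (a - b) (by omega)).1
  have h3 : ∏ t ∈ range b, gbr u ((a : ℤ) - t) = brf (u : ℂ) a * (brf (u : ℂ) (a - b))⁻¹ := by
    rw [h1]; field_simp
  rw [h3, norm_mul, norm_inv]
  have a1 := brf_ub hb a ha
  have a2 := brf_lb hb (a - b) (by omega)
  calc ‖brf (u : ℂ) a‖ * ‖brf (u : ℂ) (a - b)‖⁻¹
      ≤ Real.exp β * Real.exp β := by gcongr
    _ = Real.exp β ^ 2 := by ring

lemma abs_exp1 {M a b c d : ℕ} (hM : 1 ≤ M) (ha : a < M) (hb : b < M) (hc : c < M) (hd : d < M) :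
    |(1 + (a : ℤ) + b) + 2 * c * d| ≤ 8 * (M : ℤ) ^ 2 ∧
    |(-(1 + (a : ℤ) + b) - 2 * c * d)| ≤ 8 * (M : ℤ) ^ 2 := by
  have h1 : c * d ≤ M * M := Nat.mul_le_mul hc.le hd.le
  have h2 : ((c : ℤ) * d) ≤ M * M := by exact_mod_cast h1
  have h3 : (a : ℤ) ≤ M := by exact_mod_cast ha.le
  have h4 : (b : ℤ) ≤ M := by exact_mod_cast hb.le
  have h5 : (1 : ℤ) ≤ M := by exact_mod_cast hM
  have h6 : 0 ≤ (c : ℤ) * d := by positivity
  have h7 : 0 ≤ (a : ℤ) := by positivity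
  have h8 : 0 ≤ (b : ℤ) := by positivity
  constructor
  · rw [abs_le]
    constructor <;> nlinarith
  · rw [abs_le]
    constructor <;> nlinarith

lemma tri_le {M m : ℕ} (hm : m < M) : m * (m - 1) / 2 ≤ 8 * M ^ 2 := by
  have h1 : m * (m - 1) / 2 ≤ m * (m - 1) := Nat.div_le_self _ _
  have h2 : m * (m - 1) ≤ M * M := Nat.mul_le_mul hm.le (by omega)
  nlinarith

include hz in
lemma pow_le3 (n : ℕ) (hn : n ≤ 8 * M ^ 2) : ‖(u : ℂ) ^ n‖ ≤ 3 ∧ ‖((u⁻¹ : ℂˣ) : ℂ) ^ n‖ ≤ 3 := by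
  have h1 : (n : ℤ) ≤ 8 * (M : ℤ) ^ 2 := by exact_mod_cast hn
  have h2 := hz n (by rw [abs_of_nonneg (by positivity)]; exact h1)
  have h3 := hz (-n) (by rw [abs_neg, abs_of_nonneg (by positivity)]; exact h1)
  constructor
  · rwa [zpow_natCast] at h2
  · rw [zpow_neg, zpow_natCast] at h3
    rw [Units.val_inv_eq_inv_val, inv_pow]
    exact h3

include hz hb in
lemma uP_le (hM : 1 ≤ M) (p q : Fin M × Fin M) : ‖uP M u p q‖ ≤
    if (p.1 : ℕ) + p.2 = q.1 + q.2 then 9 * Real.exp β ^ 5 else 0 := by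
  rw [uP]
  by_cases hc : (p.1 : ℕ) + p.2 = q.1 + q.2
  · rw [if_pos hc]
    split_ifs with h
    · rw [norm_mul, norm_mul, norm_mul, norm_mul, norm_pow, norm_neg, norm_one, one_pow, one_mul,
        Units.val_zpow_eq_zpow_val]
      have a1 := hz _ (abs_exp1 hM q.1.2 q.2.2 p.1.2 p.2.2).1
      have a2 := (pow_le3 hz _ (tri_le (m := (p.1 : ℕ) - q.2) (M := M)
        (by have := p.1.2; omega))).1
      have a3 := gb_le hb p.1 ((p.1 : ℕ) - q.2) p.1.2 (Nat.sub_le _ _)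
      have a4 := pr_le hb q.1 ((p.1 : ℕ) - q.2) q.1.2 (by omega)
      calc _ ≤ 3 * 3 * Real.exp β ^ 3 * Real.exp β ^ 2 := by gcongr
        _ = 9 * Real.exp β ^ 5 := by ring
    · rw [norm_zero]; positivity
  · rw [if_neg hc, if_neg (fun h => hc h.1), norm_zero]

include hz hb in
lemma uN_le (hM : 1 ≤ M) (p q : Fin M × Fin M) : ‖uN M u p q‖ ≤
    if (p.1 : ℕ) + p.2 = q.1 + q.2 then 9 * Real.exp β ^ 5 else 0 := by
  rw [uN]
  by_cases hc : (p.1 : ℕ) + p.2 = q.1 + q.2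
  · rw [if_pos hc]
    split_ifs with h
    · rw [norm_mul, norm_mul, norm_mul, norm_mul, norm_mul, norm_pow, norm_pow, norm_neg, norm_one,
        one_pow, one_mul, one_pow, one_mul, Units.val_zpow_eq_zpow_val]
      have a1 := hz _ (abs_exp1 hM q.1.2 q.2.2 q.1.2 q.2.2).2
      have a2 := (pow_le3 hz _ (tri_le (m := (p.2 : ℕ) - q.1) (M := M)
        (by have := p.2.2; omega))).2
      have a3 := gb_le hb p.2 ((p.2 : ℕ) - q.1) p.2.2 (Nat.sub_le _ _)
      have a4 := pr_le hb q.2 ((p.2 : ℕ) - q.1) q.2.2 (by omega)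
      calc _ ≤ 3 * 3 * Real.exp β ^ 3 * Real.exp β ^ 2 := by gcongr
        _ = 9 * Real.exp β ^ 5 := by ring
    · rw [norm_zero]; positivity
  · rw [if_neg hc, if_neg (fun h => hc h.1), norm_zero]

include hz hb in
theorem uj_le (hβ : 0 ≤ β) (hM : 1 ≤ M) (n : ℕ) (w : List (ℕ × Bool)) : ‖uj M n w u‖ ≤
    (3 * M : ℝ) ^ n * (M * (9 * Real.exp β ^ 5)) ^ w.length := by
  have hMr : (1 : ℝ) ≤ M := by exact_mod_cast hM
  have hE : 1 ≤ Real.exp β ^ 5 := one_le_pow₀ (Real.one_le_exp hβ)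
  have hR : 1 ≤ (M : ℝ) * (9 * Real.exp β ^ 5) :=
    one_le_mul_of_one_le_of_one_le hMr (by linarith)
  have hP := col_cross (uP M u) _ (by positivity) (uP_le hz hb hM)
  have hQ := col_cross (uN M u) _ (by positivity) (uN_le hz hb hM)
  have hrep := col_rep (uP M u) (uN M u) _ hR hP hQ (n + 1) w
  have e : rep (uP M u) (uN M u) (n + 1) w = grep (uP M u) (uN M u) (n + 1) w := rfl
  rw [e] at hrep
  rw [uj, dif_pos (by omega : 0 < M), gtail]
  refine (norm_sum_le _ _).trans ?_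
  have h1 : ∀ s : Fin n → Fin M, ‖(∏ x, uw u (s x)) *
      grep (uP M u) (uN M u) (n + 1) w (Fin.cons ⟨0, by omega⟩ s) (Fin.cons ⟨0, by omega⟩ s)‖ ≤
      3 ^ n * (M * (9 * Real.exp β ^ 5)) ^ w.length := by
    intro s
    rw [norm_mul, norm_prod]
    have h2 : ∏ x, ‖uw u (s x : ℕ)‖ ≤ (3 : ℝ) ^ n := by
      have h3 : ∏ x : Fin n, ‖uw u (s x : ℕ)‖ ≤ ∏ _x : Fin n, (3 : ℝ) := by
        refine Finset.prod_le_prod (fun _ _ => norm_nonneg _) fun x _ => ?_
        rw [uw, norm_neg, Units.val_zpow_eq_zpow_val]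
        apply hz
        have h4 : ((s x : ℕ) : ℤ) < M := by exact_mod_cast (s x).2
        have h5 : (1 : ℤ) ≤ M := by exact_mod_cast hM
        have h6 : (0 : ℤ) ≤ ((s x : ℕ) : ℤ) := by positivity
        rw [abs_le]
        constructor <;> nlinarith
      rwa [Finset.prod_const, Finset.card_univ, Fintype.card_fin] at h3
    refine mul_le_mul h2 ?_ (norm_nonneg _) (by positivity)
    exact (Finset.single_le_sum (f := fun t => ‖grep (uP M u) (uN M u) (n + 1) w t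
      (Fin.cons ⟨0, by omega⟩ s)‖) (fun _ _ => norm_nonneg _) (mem_univ _)).trans (hrep _)
  refine (Finset.sum_le_sum fun s _ => h1 s).trans ?_
  rw [Finset.sum_const, Finset.card_univ, Fintype.card_fun, Fintype.card_fin, Fintype.card_fin,
    nsmul_eq_mul]
  push_cast
  rw [mul_pow]
  apply le_of_eq
  ring

include hz hb in
theorem uj_exp (hβ : 0 ≤ β) (hM : 1 ≤ M) (n : ℕ) (w : List (ℕ × Bool)) : ‖uj M n w u‖ ≤
    Real.exp ((2 * n + 5 * w.length) * (1 + Real.log M + β)) := by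
  refine (uj_le hz hb hβ hM n w).trans ?_
  have hMr : (1 : ℝ) ≤ M := by exact_mod_cast hM
  have hL : 0 ≤ Real.log M := Real.log_nonneg hMr
  have h3 : (3 : ℝ) ≤ Real.exp 2 := by
    have := Real.add_one_le_exp 2
    linarith
  have h9 : (9 : ℝ) ≤ Real.exp 4 := by
    have h4 : Real.exp 4 = Real.exp 2 * Real.exp 2 := by rw [← Real.exp_add]; norm_num
    rw [h4]
    nlinarith
  have hMe : (M : ℝ) = Real.exp (Real.log M) := (Real.exp_log (by linarith)).symm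
  have h1 : (3 * M : ℝ) ≤ Real.exp (2 * (1 + Real.log M + β)) := by
    calc (3 * M : ℝ) ≤ Real.exp 2 * Real.exp (Real.log M) := by
          rw [← hMe]
          exact mul_le_mul_of_nonneg_right h3 (by linarith)
      _ = Real.exp (2 + Real.log M) := by rw [← Real.exp_add]
      _ ≤ _ := by rw [Real.exp_le_exp]; linarith
  have h2 : (M : ℝ) * (9 * Real.exp β ^ 5) ≤ Real.exp (5 * (1 + Real.log M + β)) := by
    calc (M : ℝ) * (9 * Real.exp β ^ 5) ≤ Real.exp (Real.log M) * (Real.exp 4 * Real.exp β ^ 5) := by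
          rw [← hMe]
          gcongr
      _ = Real.exp (Real.log M + (4 + 5 * β)) := by
          rw [Real.exp_add, Real.exp_add, ← Real.exp_nat_mul]
          norm_num
      _ ≤ _ := by rw [Real.exp_le_exp]; linarith
  calc (3 * M : ℝ) ^ n * (M * (9 * Real.exp β ^ 5)) ^ w.length
      ≤ Real.exp (2 * (1 + Real.log M + β)) ^ n * Real.exp (5 * (1 + Real.log M + β)) ^ w.length := by
        gcongr
    _ = _ := by
        rw [← Real.exp_nat_mul, ← Real.exp_nat_mul, ← Real.exp_add]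
        congr 1
        ring

end growth

end Pool.Agent.U476.ZO
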